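import Pool.Agent.T6.H63.LD.Flow

/-!
Bipartite graphs of large girth (a maximal graph).
-/

set_option autoImplicit false

namespace Pool.Agent.T6.H63.LD

open Finset

section walk

variable {X : Type} {G G' : SimpleGraph X} {a b : X}

theorem walk_split (hsub : ∀ e ∈ G'.edgeSet, e = s(a, b) ∨ e ∈ G.edgeSet) :
    ∀ {x y : X} (p : G'.Walk x y), p.edges.Nodup → s(a, b) ∈ p.edges →
      (∃ (p1 : G.Walk x a) (p2 : G.Walk b y), p1.length + p2.length + 1 = p.length) ∨
        ∃ (p1 : G.Walk x b) (p2 : G.Walk a y), p1.length + p2.length + 1 = p.length := by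
  intro x y p
  induction p with
  | nil => intro _ h; simp at h
  | @cons x z y h p ih =>
    intro hnd hmem
    rw [SimpleGraph.Walk.edges_cons] at hnd hmem
    rw [List.nodup_cons] at hnd
    by_cases he : s(x, z) = s(a, b)
    · have hp : ∀ e ∈ p.edges, e ∈ G.edgeSet := by
        intro e hep
        rcases hsub e (p.edges_subset_edgeSet hep) with h1 | h1
        · exfalso
          apply hnd.1
          rw [he, ← h1]
          exact hep
        · exact h1
      rw [Sym2.eq_iff] at he
      rcases he with ⟨rfl, rfl⟩ | ⟨rfl, rfl⟩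
      · left
        refine ⟨SimpleGraph.Walk.nil, p.transfer G hp, ?_⟩
        rw [SimpleGraph.Walk.length_transfer, SimpleGraph.Walk.length_nil,
          SimpleGraph.Walk.length_cons]
        omega
      · right
        refine ⟨SimpleGraph.Walk.nil, p.transfer G hp, ?_⟩
        rw [SimpleGraph.Walk.length_transfer, SimpleGraph.Walk.length_nil,
          SimpleGraph.Walk.length_cons]
        omega
    · have hG : G.Adj x z := by
        rcases hsub s(x, z) (by simpa using h) with h1 | h1
        · exact absurd h1 he
        · simpa using h1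
      have hmem' : s(a, b) ∈ p.edges := by
        rcases List.mem_cons.1 hmem with h1 | h1
        · exact absurd h1.symm he
        · exact h1
      rcases ih hnd.2 hmem' with ⟨p1, p2, hl⟩ | ⟨p1, p2, hl⟩
      · left
        refine ⟨SimpleGraph.Walk.cons hG p1, p2, ?_⟩
        rw [SimpleGraph.Walk.length_cons, SimpleGraph.Walk.length_cons]
        omega
      · right
        refine ⟨SimpleGraph.Walk.cons hG p1, p2, ?_⟩
        rw [SimpleGraph.Walk.length_cons, SimpleGraph.Walk.length_cons]
        omega

/-- Adding an edge between vertices of large distance keeps the girth large. -/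
theorem girth_add (hsub : ∀ e ∈ G'.edgeSet, e = s(a, b) ∨ e ∈ G.edgeSet) {L : ℕ}
    (hg : (L : ℕ∞) < G.egirth) (hd : ∀ p : G.Walk b a, L < p.length + 1) :
    (L : ℕ∞) < G'.egirth := by
  by_contra hcon
  have h1 : ¬ ((L + 1 : ℕ) : ℕ∞) ≤ G'.egirth := by
    intro h
    apply hcon
    refine lt_of_lt_of_le ?_ h
    exact_mod_cast Nat.lt_succ_self L
  rw [SimpleGraph.le_egirth] at h1
  push Not at h1
  obtain ⟨x, c, hc, hlen⟩ := h1
  have hlen' : c.length ≤ L := by
    have : c.length < L + 1 := by exact_mod_cast hlen
    omega
  by_cases hmem : s(a, b) ∈ c.edges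
  · rcases walk_split hsub c hc.isTrail.edges_nodup hmem with ⟨p1, p2, hl⟩ | ⟨p1, p2, hl⟩
    · have := hd (p2.append p1)
      rw [SimpleGraph.Walk.length_append] at this
      omega
    · have := hd (p2.append p1).reverse
      rw [SimpleGraph.Walk.length_reverse, SimpleGraph.Walk.length_append] at this
      omega
  · have hp : ∀ e ∈ c.edges, e ∈ G.edgeSet := by
      intro e he
      rcases hsub e (c.edges_subset_edgeSet he) with h1 | h1
      · rw [h1] at he
        exact absurd he hmem
      · exact h1
    have h2 := SimpleGraph.egirth_le_length (hc.transfer hp)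
    rw [SimpleGraph.Walk.length_transfer] at h2
    have h3 := hg.trans_le h2
    have h4 : L < c.length := by exact_mod_cast h3
    omega

open Classical in
/-- the ball of radius `j` -/
noncomputable def ball [Fintype X] (G : SimpleGraph X) (x : X) : ℕ → Finset X
  | 0 => {x}
  | j + 1 => (ball G x j).biUnion fun y => insert y (univ.filter fun z => G.Adj y z)

open Classical in
theorem ball_card [Fintype X] (G : SimpleGraph X) (x : X) {D : ℕ}
    (hD : ∀ y, (univ.filter fun z => G.Adj y z).card ≤ D) (j : ℕ) :
    (ball G x j).card ≤ (D + 1) ^ j := by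
  induction j with
  | zero => simp [ball]
  | succ j ih =>
    rw [ball]
    refine (card_biUnion_le_card_mul _ _ (D + 1) ?_).trans ?_
    · intro y _
      exact (card_insert_le _ _).trans (by have := hD y; omega)
    · rw [pow_succ]
      exact Nat.mul_le_mul_right _ ih

open Classical in
theorem ball_mono [Fintype X] (G : SimpleGraph X) (x : X) {i j : ℕ} (h : i ≤ j) :
    ball G x i ⊆ ball G x j := by
  induction j, h using Nat.le_induction with
  | base => exact Subset.refl _
  | succ j _ ih =>
    refine ih.trans ?_
    intro y hy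
    rw [ball, mem_biUnion]
    exact ⟨y, hy, mem_insert_self _ _⟩

open Classical in
theorem mem_ball [Fintype X] {G : SimpleGraph X} {x y : X} (p : G.Walk y x) :
    y ∈ ball G x p.length := by
  induction p with
  | nil => simp [ball]
  | @cons y z x h p ih =>
    rw [SimpleGraph.Walk.length_cons, ball, mem_biUnion]
    refine ⟨z, ih, mem_insert_of_mem ?_⟩
    simpa using h.symm

end walk

/-- the bipartite graph of a set of pairs -/
abbrev grH {N : ℕ} (H : Finset (Fin N × Fin N)) : SimpleGraph (Fin N ⊕ Fin N) :=
  gr Prod.fst Prod.snd (H : Set (Fin N × Fin N))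

theorem grH_insert {N : ℕ} (H : Finset (Fin N × Fin N)) (u v : Fin N) :
    ∀ e ∈ (grH (insert (u, v) H)).edgeSet, e = s(Sum.inl u, Sum.inr v) ∨ e ∈ (grH H).edgeSet := by
  intro e he
  obtain ⟨f, hf, rfl⟩ := mem_edgeSet he
  rw [mem_coe, mem_insert] at hf
  rcases hf with rfl | hf
  · left
    rfl
  · right
    rw [SimpleGraph.mem_edgeSet]
    exact gr_adj hf

/-- There are bipartite graphs with many edges, bounded degrees and large girth. -/
theorem exists_graph (N D r : ℕ) (hr : 1 ≤ r) (hN : 2 * (D + 1) ^ (2 * r) ≤ N) :
    ∃ H : Finset (Fin N × Fin N), N * D ≤ 2 * H.card ∧ H.card ≤ N * D ∧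
      ((2 * r : ℕ) : ℕ∞) < (grH H).egirth := by
  classical
  let P : Finset (Fin N × Fin N) → Prop := fun H =>
    (∀ u, (H.filter fun e => e.1 = u).card ≤ D) ∧ (∀ v, (H.filter fun e => e.2 = v).card ≤ D) ∧
      ((2 * r : ℕ) : ℕ∞) < (grH H).egirth
  have hP0 : P ∅ := by
    refine ⟨fun u => by simp, fun v => by simp, ?_⟩
    have : grH (∅ : Finset (Fin N × Fin N)) = ⊥ := by
      ext x y
      simp only [SimpleGraph.bot_adj, iff_false]
      rintro ⟨e, he, -⟩
      simp at he
    rw [this, SimpleGraph.egirth_bot]
    exact ENat.natCast_lt_top _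
  obtain ⟨H, hH, hmax⟩ := exists_max_image (univ.filter P) card ⟨∅, by simpa using hP0⟩
  rw [mem_filter] at hH
  obtain ⟨-, h1, h2, h3⟩ := hH
  have hdeg1 : H.card = ∑ u, (H.filter fun e => e.1 = u).card :=
    card_eq_sum_card_fiberwise (fun _ _ => mem_univ _)
  have hdeg2 : H.card = ∑ v, (H.filter fun e => e.2 = v).card :=
    card_eq_sum_card_fiberwise (fun _ _ => mem_univ _)
  refine ⟨H, ?_, ?_, h3⟩
  swap
  · rw [hdeg1]
    calc ∑ u, (H.filter fun e => e.1 = u).card ≤ ∑ _u : Fin N, D := sum_le_sum fun u _ => h1 u
      _ = N * D := by simp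
  by_cases hA : ∀ u, D ≤ (H.filter fun e => e.1 = u).card
  · have : N * D ≤ H.card := by
      rw [hdeg1]
      calc N * D = ∑ _u : Fin N, D := by simp
        _ ≤ _ := sum_le_sum fun u _ => hA u
    omega
  push Not at hA
  obtain ⟨u, hu⟩ := hA
  set B := univ.filter fun v => (H.filter fun e => e.2 = v).card < D with hB
  have hnb : ∀ y, (univ.filter fun z => (grH H).Adj y z).card ≤ D := by
    rintro (u' | v')
    · have : (univ.filter fun z => (grH H).Adj (Sum.inl u') z) ⊆
          (H.filter fun e => e.1 = u').image fun e => Sum.inr e.2 := by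
        intro z hz
        simp only [mem_filter, mem_univ, true_and] at hz
        obtain ⟨e, he, ⟨h4, h5⟩ | ⟨h4, h5⟩⟩ := hz
        · rw [mem_image]
          refine ⟨e, mem_filter.2 ⟨he, (Sum.inl.inj h4).symm⟩, h5.symm⟩
        · simp at h4
      exact (card_le_card this).trans (card_image_le.trans (h1 u'))
    · have : (univ.filter fun z => (grH H).Adj (Sum.inr v') z) ⊆
          (H.filter fun e => e.2 = v').image fun e => Sum.inl e.1 := by
        intro z hz
        simp only [mem_filter, mem_univ, true_and] at hz
        obtain ⟨e, he, ⟨h4, h5⟩ | ⟨h4, h5⟩⟩ := hz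
        · simp at h4
        · rw [mem_image]
          refine ⟨e, mem_filter.2 ⟨he, (Sum.inr.inj h4).symm⟩, h5.symm⟩
      exact (card_le_card this).trans (card_image_le.trans (h2 v'))
  have hball : B.card ≤ (D + 1) ^ (2 * r) := by
    have hsub : B.image (fun v => (Sum.inr v : Fin N ⊕ Fin N)) ⊆
        ball (grH H) (Sum.inl u) (2 * r - 1) := by
      intro x hx
      obtain ⟨v, hv, rfl⟩ := mem_image.1 hx
      rw [hB, mem_filter] at hv
      by_contra hnot
      have hfar : ∀ p : (grH H).Walk (Sum.inr v) (Sum.inl u), 2 * r < p.length + 1 := by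
        intro p
        by_contra hlt
        exact hnot (ball_mono _ _ (by omega) (mem_ball p))
      have huv : (u, v) ∉ H := by
        intro hmem
        have hadj : (grH H).Adj (Sum.inr v) (Sum.inl u) := (gr_adj (e := (u, v)) (by
          exact hmem)).symm
        have := hfar (SimpleGraph.Walk.cons hadj SimpleGraph.Walk.nil)
        simp only [SimpleGraph.Walk.length_cons, SimpleGraph.Walk.length_nil] at this
        omega
      have hP' : P (insert (u, v) H) := by
        refine ⟨?_, ?_, girth_add (grH_insert H u v) h3 hfar⟩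
        · intro u'
          rw [filter_insert]
          split_ifs with h4
          · subst h4
            refine (card_insert_le _ _).trans ?_
            simp only at hu ⊢
            omega
          · exact h1 u'
        · intro v'
          rw [filter_insert]
          split_ifs with h4
          · subst h4
            refine (card_insert_le _ _).trans ?_
            have := hv.2
            simp only at this ⊢
            omega
          · exact h2 v'
      have := hmax _ (mem_filter.2 ⟨mem_univ _, hP'⟩)
      rw [card_insert_of_notMem huv] at this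
      omega
    have h4 := card_le_card hsub
    rw [card_image_of_injective _ Sum.inr_injective] at h4
    refine h4.trans ((ball_card _ _ hnb _).trans ?_)
    exact Nat.pow_le_pow_right (by omega) (by omega)
  have h5 : (N - B.card) * D ≤ H.card := by
    rw [hdeg2]
    calc (N - B.card) * D = ∑ _v ∈ Bᶜ, D := by
          rw [sum_const, card_compl, Fintype.card_fin, smul_eq_mul]
      _ ≤ ∑ v ∈ Bᶜ, (H.filter fun e => e.2 = v).card := by
          apply sum_le_sum
          intro v hv
          rw [mem_compl, hB, mem_filter] at hv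
          push Not at hv
          exact hv (mem_univ _)
      _ ≤ _ := sum_le_sum_of_subset (subset_univ _)
  have h6 : N ≤ 2 * (N - B.card) := by omega
  calc N * D ≤ 2 * (N - B.card) * D := Nat.mul_le_mul_right _ h6
    _ = 2 * ((N - B.card) * D) := by ring
    _ ≤ 2 * H.card := by omega

end Pool.Agent.T6.H63.LD
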