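import Pool.Agent.T6.H63.LD.Lin
import Pool.Agent.H968R3.GraphLem

/-!
Flows on a bipartite graph of large girth and random sets of edges.
-/

set_option autoImplicit false

namespace Pool.Agent.T6.H63.LD

open Finset

/-- The bipartite graph of the edges in `S`. -/
def gr {U V E : Type} (s : E → U) (d : E → V) (S : Set E) : SimpleGraph (U ⊕ V) where
  Adj x y := ∃ e ∈ S, (x = Sum.inl (s e) ∧ y = Sum.inr (d e)) ∨
    (x = Sum.inr (d e) ∧ y = Sum.inl (s e))
  symm := ⟨fun x y ⟨e, he, h⟩ => ⟨e, he, by tauto⟩⟩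
  loopless := ⟨fun x ⟨e, he, h⟩ => by
    rcases h with ⟨h1, h2⟩ | ⟨h1, h2⟩ <;> · rw [h1] at h2; simp at h2⟩

section

variable {U V E : Type} {s : E → U} {d : E → V}

theorem gr_mono {S T : Set E} (h : S ⊆ T) : gr s d S ≤ gr s d T := by
  rintro x y ⟨e, he, h1⟩
  exact ⟨e, h he, h1⟩

theorem gr_adj {S : Set E} {e : E} (he : e ∈ S) :
    (gr s d S).Adj (Sum.inl (s e)) (Sum.inr (d e)) := ⟨e, he, Or.inl ⟨rfl, rfl⟩⟩

theorem mem_edgeSet {S : Set E} {x : Sym2 (U ⊕ V)} (hx : x ∈ (gr s d S).edgeSet) :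
    ∃ e ∈ S, x = s(Sum.inl (s e), Sum.inr (d e)) := by
  induction x with
  | _ x y =>
    rw [SimpleGraph.mem_edgeSet] at hx
    obtain ⟨e, he, h⟩ := hx
    refine ⟨e, he, ?_⟩
    rcases h with ⟨rfl, rfl⟩ | ⟨rfl, rfl⟩
    · rfl
    · exact Sym2.eq_swap

theorem edge_inj (hinj : ∀ e e', s e = s e' → d e = d e' → e = e') {e e' : E}
    (h : (s(Sum.inl (s e), Sum.inr (d e)) : Sym2 (U ⊕ V)) = s(Sum.inl (s e'), Sum.inr (d e'))) :
    e = e' := by
  rw [Sym2.eq_iff] at h
  rcases h with ⟨h1, h2⟩ | ⟨h1, h2⟩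
  · exact hinj e e' (Sum.inl.inj h1) (Sum.inr.inj h2)
  · simp at h1

/-- a path of given length in a subgraph without vertices of degree one -/
theorem exists_path [Finite U] [Finite V] {B G : SimpleGraph (U ⊕ V)} (hBG : B ≤ G) {r : ℕ}
    (hg : ((2 * r : ℕ) : ℕ∞) < G.egirth) (hne : ∃ u v, B.Adj u v)
    (h2 : ∀ u v, B.Adj u v → ∃ w, w ≠ v ∧ B.Adj u w) :
    ∃ (x y : U ⊕ V) (p : G.Walk x y), p.IsPath ∧ p.length = r ∧
      (∀ e ∈ p.edges, e ∈ B.edgeSet) ∧ (∃ w, B.Adj x w) ∧ (∃ w, B.Adj y w) := by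
  have h := Pool.Agent.H968R3.not_acyclic hne h2
  unfold SimpleGraph.IsAcyclic at h
  push Not at h
  obtain ⟨v, c, hc⟩ := h
  have h1 : ((2 * r : ℕ) : ℕ∞) < (c.mapLe hBG).length :=
    hg.trans_le (SimpleGraph.egirth_le_length (hc.mapLe hBG))
  rw [SimpleGraph.Walk.length_map] at h1
  have h3 : 2 * r < c.length := by exact_mod_cast h1
  have h4 := hc.three_le_length
  have hnil : ¬ c.Nil := hc.not_nil
  have hp : (c.tail.take r).IsPath := hc.isPath_tail.take r
  refine ⟨_, _, (c.tail.take r).mapLe hBG, hp.mapLe hBG, ?_, ?_, ⟨v, (c.adj_snd hnil).symm⟩,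
    ⟨c.getVert r, ?_⟩⟩
  · rw [SimpleGraph.Walk.length_map, SimpleGraph.Walk.take_length, SimpleGraph.Walk.length_tail]
    omega
  · intro e he
    rw [SimpleGraph.Walk.edges_mapLe_eq_edges] at he
    exact SimpleGraph.Walk.edges_subset_edgeSet _ he
  · rw [SimpleGraph.Walk.getVert_tail]
    exact (c.adj_getVert_succ (i := r) (by omega)).symm

/-- short paths are unique -/
theorem path_uniq {X : Type} {G : SimpleGraph X} {r : ℕ} (hg : ((2 * r : ℕ) : ℕ∞) < G.egirth)
    {u v : X} {p p' : G.Walk u v} (hp : p.IsPath) (hp' : p'.IsPath) (h : p.length = r)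
    (h' : p'.length = r) : p = p' := by
  by_contra hne
  obtain ⟨w, -, -, c, hc, hl⟩ := hp.exists_isCycle_length_le_add_of_ne hp' hne
  have h1 := hg.trans_le (SimpleGraph.egirth_le_length hc)
  have h2 : 2 * r < c.length := by exact_mod_cast h1
  omega

variable [Fintype E] [DecidableEq E]

/-- number of statuses with all edges in `S` clean -/
theorem clean_card {k : ℕ} [NeZero k] (S : Finset E) :
    ((univ.filter fun z : E → Fin k => ∀ e ∈ S, z e ≠ 0).card : ℝ) =
      (k : ℝ) ^ Fintype.card E * (1 - 1 / (k : ℝ)) ^ S.card := by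
  have hk : (0 : ℝ) < k := by exact_mod_cast Nat.pos_of_ne_zero (NeZero.ne k)
  have e1 : (univ.filter fun z : E → Fin k => ∀ e ∈ S, z e ≠ 0) =
      Fintype.piFinset fun e => if e ∈ S then univ.erase (0 : Fin k) else univ := by
    ext z
    simp only [mem_filter, mem_univ, true_and, Fintype.mem_piFinset]
    refine forall_congr' fun e => ?_
    by_cases he : e ∈ S <;> simp [he]
  rw [e1, Fintype.card_piFinset]
  push_cast
  have e2 : ∀ e : E, (((if e ∈ S then univ.erase (0 : Fin k) else univ : Finset (Fin k)).card : ℕ)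
      : ℝ) = k * (if e ∈ S then (1 - 1 / (k : ℝ)) else 1) := by
    intro e
    by_cases he : e ∈ S
    · simp only [he, if_true, card_erase_of_mem (mem_univ _), card_univ, Fintype.card_fin]
      rw [Nat.cast_sub (Nat.pos_of_ne_zero (NeZero.ne k))]
      field_simp
      simp
    · simp [he]
  simp only [e2]
  rw [prod_mul_distrib, prod_const, card_univ, Finset.prod_ite_mem, univ_inter, prod_const]

open Classical in
/-- The probability that a path of length `r` between two given vertices is clean. -/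
theorem pair_card (hinj : ∀ e e', s e = s e' → d e = d e' → e = e') {k : ℕ} [NeZero k] {r : ℕ}
    (hg : ((2 * r : ℕ) : ℕ∞) < (gr s d Set.univ).egirth) (x y : U ⊕ V) :
    ((univ.filter fun z : E → Fin k => ∃ p : (gr s d Set.univ).Walk x y, p.IsPath ∧
        p.length = r ∧ ∀ e, s(Sum.inl (s e), Sum.inr (d e)) ∈ p.edges → z e ≠ 0).card : ℝ) ≤
      (k : ℝ) ^ Fintype.card E * (1 - 1 / (k : ℝ)) ^ r := by
  have hk : (1 : ℝ) ≤ k := by exact_mod_cast Nat.pos_of_ne_zero (NeZero.ne k)
  have hk0 : 0 ≤ 1 - 1 / (k : ℝ) := by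
    rw [sub_nonneg, div_le_one (by linarith)]
    exact hk
  by_cases h : ∃ p : (gr s d Set.univ).Walk x y, p.IsPath ∧ p.length = r
  · obtain ⟨p, hp, hr⟩ := h
    set S : Finset E := univ.filter fun e => s(Sum.inl (s e), Sum.inr (d e)) ∈ p.edges with hS
    have hcard : S.card = r := by
      have h1 : p.edges.toFinset = S.image fun e => s(Sum.inl (s e), Sum.inr (d e)) := by
        ext x
        simp only [List.mem_toFinset, mem_image, hS, mem_filter, mem_univ, true_and]
        constructor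
        · intro hx
          obtain ⟨e, -, rfl⟩ := mem_edgeSet (p.edges_subset_edgeSet hx)
          exact ⟨e, hx, rfl⟩
        · rintro ⟨e, he, rfl⟩
          exact he
      have h2 : p.edges.toFinset.card = r := by
        rw [List.toFinset_card_of_nodup hp.isTrail.edges_nodup, SimpleGraph.Walk.length_edges, hr]
      rw [← h2, h1, card_image_of_injective _ fun e e' h => edge_inj hinj h]
    have hcc := clean_card (k := k) S
    rw [hcard] at hcc
    rw [← hcc]
    norm_cast
    apply card_le_card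
    intro z hz
    simp only [mem_filter, mem_univ, true_and] at hz ⊢
    obtain ⟨p', hp', hr', hz⟩ := hz
    have := path_uniq hg hp' hp hr' hr
    subst this
    intro e he
    exact hz e (by simpa [hS] using he)
  · have : (univ.filter fun z : E → Fin k => ∃ p : (gr s d Set.univ).Walk x y, p.IsPath ∧
        p.length = r ∧ ∀ e, s(Sum.inl (s e), Sum.inr (d e)) ∈ p.edges → z e ≠ 0) = ∅ := by
      rw [filter_eq_empty_iff]
      rintro z - ⟨p, hp, hr, -⟩
      exact h ⟨p, hp, hr⟩
    rw [this]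
    simp only [card_empty, Nat.cast_zero]
    positivity

open Classical in
/-- `a` is a flow: the values at the edges of every vertex add up to zero. -/
def IsFlow {K : Type} [Field K] (s : E → U) (d : E → V) (a : E → K) : Prop :=
  (∀ u, ∑ e ∈ univ.filter (fun e => s e = u), a e = 0) ∧
    ∀ v, ∑ e ∈ univ.filter (fun e => d e = v), a e = 0

open Classical in
theorem exists_other {K X : Type} [Field K] {f : E → X} {a : E → K} {e : E} (he : a e ≠ 0)
    (h : ∑ e' ∈ univ.filter (fun e' => f e' = f e), a e' = 0) :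
    ∃ e', e' ≠ e ∧ f e' = f e ∧ a e' ≠ 0 := by
  by_contra hcon
  push Not at hcon
  apply he
  rw [← h]
  symm
  apply sum_eq_single_of_mem e (by simp)
  intro e' he' hne
  exact hcon e' hne (by simpa using he')

omit [DecidableEq E] in
/-- The support of a nonzero flow contains a path of length `r`. -/
theorem flow_path [Finite U] [Finite V] {K : Type} [Field K]
    (hinj : ∀ e e', s e = s e' → d e = d e' → e = e') {r : ℕ}
    (hg : ((2 * r : ℕ) : ℕ∞) < (gr s d Set.univ).egirth) {a : E → K} (ha : IsFlow s d a)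
    (hne : ∃ e, a e ≠ 0) :
    ∃ (x y : U ⊕ V) (p : (gr s d Set.univ).Walk x y), p.IsPath ∧ p.length = r ∧
      (∀ e, s(Sum.inl (s e), Sum.inr (d e)) ∈ p.edges → a e ≠ 0) ∧
      (∃ e, a e ≠ 0 ∧ (x = Sum.inl (s e) ∨ x = Sum.inr (d e))) ∧
      (∃ e, a e ≠ 0 ∧ (y = Sum.inl (s e) ∨ y = Sum.inr (d e))) := by
  classical
  obtain ⟨e0, he0⟩ := hne
  obtain ⟨x, y, p, hp, hr, hB, hx, hy⟩ := exists_path (B := gr s d {e | a e ≠ 0})
    (G := gr s d Set.univ) (gr_mono (Set.subset_univ _)) hg ⟨_, _, gr_adj (e := e0) he0⟩ (by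
      rintro u v ⟨e, he, ⟨rfl, rfl⟩ | ⟨rfl, rfl⟩⟩
      · obtain ⟨e', h1, h2, h3⟩ := exists_other (f := s) he (ha.1 (s e))
        refine ⟨Sum.inr (d e'), ?_, e', h3, Or.inl ⟨by rw [h2], rfl⟩⟩
        intro h4
        exact h1 (hinj e' e h2 (Sum.inr.inj h4))
      · obtain ⟨e', h1, h2, h3⟩ := exists_other (f := d) he (ha.2 (d e))
        refine ⟨Sum.inl (s e'), ?_, e', h3, Or.inr ⟨by rw [h2], rfl⟩⟩
        intro h4
        exact h1 (hinj e' e (Sum.inl.inj h4) h2))
  have hend : ∀ w, (∃ w', (gr s d {e | a e ≠ 0}).Adj w w') →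
      ∃ e, a e ≠ 0 ∧ (w = Sum.inl (s e) ∨ w = Sum.inr (d e)) := by
    rintro w ⟨w', e, he, h | h⟩
    · exact ⟨e, he, Or.inl h.1⟩
    · exact ⟨e, he, Or.inr h.1⟩
  refine ⟨x, y, p, hp, hr, ?_, hend x hx, hend y hy⟩
  intro e he
  obtain ⟨e', he', h⟩ := mem_edgeSet (hB _ he)
  rw [edge_inj hinj h]
  exact he'

variable {q : ℕ} [Fact q.Prime]

open Classical in
/-- The probability that some nonzero combination of `T` given vectors is a flow with clean
support. -/
theorem bad_card [Finite U] [Finite V] (hinj : ∀ e e', s e = s e' → d e = d e' → e = e')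
    {k : ℕ} [NeZero k] {r : ℕ} (hg : ((2 * r : ℕ) : ℕ∞) < (gr s d Set.univ).egirth) (T W : ℕ)
    (a : Fin T → E → ZMod q) :
    ((univ.filter fun z : E → Fin k => ∃ l : Fin T → ZMod q,
        IsFlow s d (fun e => ∑ i, l i * a i e) ∧ (∃ e, ∑ i, l i * a i e ≠ 0) ∧
        ∀ e, ∑ i, l i * a i e ≠ 0 → z e ≠ 0).card : ℝ) ≤
      (k : ℝ) ^ Fintype.card E * ((q : ℝ) ^ T * (1 - 1 / (k : ℝ)) ^ W +
        (2 * (T * W)) ^ 2 * (1 - 1 / (k : ℝ)) ^ r) := by
  have hk : (1 : ℝ) ≤ k := by exact_mod_cast Nat.pos_of_ne_zero (NeZero.ne k)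
  have hk0 : 0 ≤ 1 - 1 / (k : ℝ) := by
    rw [sub_nonneg, div_le_one (by linarith)]
    exact hk
  have hk1 : 1 - 1 / (k : ℝ) ≤ 1 := by
    have : 0 ≤ 1 / (k : ℝ) := by positivity
    linarith
  have hkm : (0 : ℝ) ≤ (k : ℝ) ^ Fintype.card E := by positivity
  -- heavy combinations
  set Z1 : Finset (E → Fin k) := univ.biUnion fun l : Fin T → ZMod q =>
    if W ≤ (univ.filter fun e => ∑ i, l i * a i e ≠ 0).card then
      univ.filter fun z : E → Fin k =>
        ∀ e ∈ univ.filter (fun e => ∑ i, l i * a i e ≠ 0), z e ≠ 0 else ∅ with hZ1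
  have hZ1c : (Z1.card : ℝ) ≤ (k : ℝ) ^ Fintype.card E * ((q : ℝ) ^ T * (1 - 1 / (k : ℝ)) ^ W) := by
    have h1 : (Z1.card : ℝ) ≤ ∑ l : Fin T → ZMod q,
        (k : ℝ) ^ Fintype.card E * (1 - 1 / (k : ℝ)) ^ W := by
      refine (Nat.cast_le.2 card_biUnion_le).trans ?_
      push_cast
      apply sum_le_sum
      intro l _
      split_ifs with h
      · rw [clean_card]
        exact mul_le_mul_of_nonneg_left (pow_le_pow_of_le_one hk0 hk1 h) hkm
      · simp only [card_empty, Nat.cast_zero]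
        positivity
    refine h1.trans (le_of_eq ?_)
    rw [sum_const, card_univ, Fintype.card_fun, ZMod.card, Fintype.card_fin, nsmul_eq_mul]
    push_cast
    ring
  -- light flows
  set Low : Set (E → ZMod q) := {b | b ∈ Submodule.span (ZMod q) (Set.range a) ∧
    (univ.filter fun e => b e ≠ 0).card ≤ W} with hLow
  obtain ⟨b, hbL, hbs, hbi⟩ := exists_linearIndependent (ZMod q) Low
  have hbfin : b.Finite := Set.toFinite b
  have hbcard : hbfin.toFinset.card ≤ T := by
    have h1 : LinearIndependent (ZMod q) (fun x : b => (⟨(x : E → ZMod q), (hbL x.2).1⟩ :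
        Submodule.span (ZMod q) (Set.range a))) := by
      apply LinearIndependent.of_comp (Submodule.span (ZMod q) (Set.range a)).subtype
      exact hbi
    have := Fintype.ofFinite b
    have h2 := h1.fintype_card_le_finrank
    have h3 : Module.finrank (ZMod q) (Submodule.span (ZMod q) (Set.range a)) ≤ T := by
      have := finrank_range_le_card (R := ZMod q) a
      rwa [Fintype.card_fin] at this
    rw [← Nat.card_eq_fintype_card] at h2
    rw [← Set.ncard_eq_toFinset_card b hbfin, ← Nat.card_coe_set_eq]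
    omega
  set Q : Finset E := hbfin.toFinset.biUnion fun b => univ.filter fun e => b e ≠ 0 with hQ
  have hQc : Q.card ≤ T * W := by
    refine (card_biUnion_le_card_mul _ _ W ?_).trans (Nat.mul_le_mul_right _ hbcard)
    intro x hx
    exact (hbL (hbfin.mem_toFinset.1 hx)).2
  have hsupp : ∀ x ∈ Low, ∀ e, x e ≠ 0 → e ∈ Q := by
    intro x hx e he
    have hx1 : x ∈ Submodule.span (ZMod q) b := by
      rw [hbs]
      exact Submodule.subset_span hx
    by_contra heQ
    apply he
    have hle : Submodule.span (ZMod q) b ≤ LinearMap.ker (LinearMap.proj (R := ZMod q)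
        (φ := fun _ : E => ZMod q) e) := by
      rw [Submodule.span_le]
      intro y hy
      simp only [SetLike.mem_coe, LinearMap.mem_ker, LinearMap.proj_apply]
      by_contra hye
      apply heQ
      rw [hQ, mem_biUnion]
      exact ⟨y, hbfin.mem_toFinset.2 hy, by simpa using hye⟩
    exact hle hx1
  set VQ : Finset (U ⊕ V) := Q.image (fun e => Sum.inl (s e)) ∪ Q.image (fun e => Sum.inr (d e))
    with hVQ
  have hVQc : VQ.card ≤ 2 * (T * W) := by
    refine (card_union_le _ _).trans ?_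
    have h1 := card_image_le (s := Q) (f := fun e => (Sum.inl (s e) : U ⊕ V))
    have h2 := card_image_le (s := Q) (f := fun e => (Sum.inr (d e) : U ⊕ V))
    omega
  set Z2 : Finset (E → Fin k) := (VQ ×ˢ VQ).biUnion fun xy =>
    univ.filter fun z : E → Fin k => ∃ p : (gr s d Set.univ).Walk xy.1 xy.2, p.IsPath ∧
        p.length = r ∧ ∀ e, s(Sum.inl (s e), Sum.inr (d e)) ∈ p.edges → z e ≠ 0 with hZ2
  have hZ2c : (Z2.card : ℝ) ≤ (k : ℝ) ^ Fintype.card E *
      ((2 * (T * W)) ^ 2 * (1 - 1 / (k : ℝ)) ^ r) := by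
    have h1 : (Z2.card : ℝ) ≤ ∑ xy ∈ VQ ×ˢ VQ,
        (k : ℝ) ^ Fintype.card E * (1 - 1 / (k : ℝ)) ^ r := by
      refine (Nat.cast_le.2 card_biUnion_le).trans ?_
      push_cast
      apply sum_le_sum
      intro xy _
      exact pair_card hinj hg xy.1 xy.2
    refine h1.trans ?_
    rw [sum_const, card_product, nsmul_eq_mul]
    push_cast
    have h2 : (VQ.card : ℝ) ≤ 2 * (T * W) := by exact_mod_cast hVQc
    have h3 : (VQ.card : ℝ) * VQ.card ≤ (2 * (T * W)) ^ 2 := by
      rw [sq]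
      gcongr
    calc (VQ.card : ℝ) * VQ.card * ((k : ℝ) ^ Fintype.card E * (1 - 1 / (k : ℝ)) ^ r)
        ≤ (2 * (T * W)) ^ 2 * ((k : ℝ) ^ Fintype.card E * (1 - 1 / (k : ℝ)) ^ r) := by
          gcongr
      _ = _ := by ring
  have hsub : (univ.filter fun z : E → Fin k => ∃ l : Fin T → ZMod q,
        IsFlow s d (fun e => ∑ i, l i * a i e) ∧ (∃ e, ∑ i, l i * a i e ≠ 0) ∧
        ∀ e, ∑ i, l i * a i e ≠ 0 → z e ≠ 0) ⊆ Z1 ∪ Z2 := by
    intro z hz
    simp only [mem_filter, mem_univ, true_and] at hz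
    obtain ⟨l, hl1, hl2, hl3⟩ := hz
    rw [mem_union]
    by_cases hW : W ≤ (univ.filter fun e => ∑ i, l i * a i e ≠ 0).card
    · left
      rw [hZ1, mem_biUnion]
      refine ⟨l, mem_univ _, ?_⟩
      rw [if_pos hW]
      simp only [mem_filter, mem_univ, true_and]
      exact hl3
    · right
      have hlow : (fun e => ∑ i, l i * a i e) ∈ Low := by
        refine ⟨?_, by push Not at hW; exact hW.le⟩
        have : (fun e => ∑ i, l i * a i e) = ∑ i, l i • a i := by
          ext e
          simp [Finset.sum_apply]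
        rw [this]
        exact Submodule.sum_mem _ fun i _ => Submodule.smul_mem _ _
          (Submodule.subset_span ⟨i, rfl⟩)
      obtain ⟨x, y, p, hp, hr, hp3, ⟨ex, hex, hx⟩, ⟨ey, hey, hy⟩⟩ := flow_path hinj hg hl1 hl2
      have hmem : ∀ w, ∀ e, (∑ i, l i * a i e ≠ 0) → (w = Sum.inl (s e) ∨ w = Sum.inr (d e)) →
          w ∈ VQ := by
        intro w e he hw
        have := hsupp _ hlow e he
        rw [hVQ, mem_union]
        rcases hw with rfl | rfl
        · left
          exact mem_image_of_mem _ this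
        · right
          exact mem_image_of_mem _ this
      rw [hZ2, mem_biUnion]
      refine ⟨(x, y), mem_product.2 ⟨hmem x ex hex hx, hmem y ey hey hy⟩, ?_⟩
      simp only [mem_filter, mem_univ, true_and]
      exact ⟨p, hp, hr, fun e he => hl3 e (hp3 e he)⟩
  calc ((univ.filter fun z : E → Fin k => ∃ l : Fin T → ZMod q,
        IsFlow s d (fun e => ∑ i, l i * a i e) ∧ (∃ e, ∑ i, l i * a i e ≠ 0) ∧
        ∀ e, ∑ i, l i * a i e ≠ 0 → z e ≠ 0).card : ℝ)
      ≤ (Z1.card : ℝ) + Z2.card := by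
        exact_mod_cast (card_le_card hsub).trans (card_union_le _ _)
    _ ≤ _ := by
        rw [mul_add]
        exact add_le_add hZ1c hZ2c

end

end Pool.Agent.T6.H63.LD
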