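import Mathlib

/-!
Adaptive linear queries: comparison of the uniform distribution with the image of the uniform
distribution under a linear map, leaf by leaf.
-/

set_option autoImplicit false

namespace Pool.Agent.T6.H63.LD

open Finset

variable {q : ℕ} {E : Type} [Fintype E]

/-- The first `i` answers (latest first). -/
def run (ask : List (ZMod q) → E → ZMod q) (c : E → ZMod q) : ℕ → List (ZMod q)
  | 0 => []
  | i + 1 => (∑ e, ask (run ask c i) e * c e) :: run ask c i

theorem run_eq_iff (ask : List (ZMod q) → E → ZMod q) (c c' : E → ZMod q) (T : ℕ) :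
    run ask c T = run ask c' T ↔
      ∀ i < T, ∑ e, ask (run ask c' i) e * c e = ∑ e, ask (run ask c' i) e * c' e := by
  induction T with
  | zero => simp [run]
  | succ T ih =>
    simp only [run, List.cons.injEq]
    constructor
    · rintro ⟨h1, h2⟩ i hi
      rcases Nat.lt_succ_iff_lt_or_eq.1 hi with h | rfl
      · exact ih.1 h2 i h
      · rw [h2] at h1
        exact h1
    · intro h
      have h2 := ih.2 (fun i hi => h i (by omega))
      refine ⟨?_, h2⟩
      rw [h2]
      exact h T (by omega)

variable [Fact q.Prime]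

section fib

variable {K M M' W : Type} [Field K] [AddCommGroup M] [Module K M] [AddCommGroup M'] [Module K M']
  [AddCommGroup W] [Module K W] [Fintype M] [Fintype M'] [DecidableEq W]

theorem card_fib (f : M →ₗ[K] W) {w : W} (hw : w ∈ LinearMap.range f) :
    (univ.filter fun x => f x = w).card * Nat.card (LinearMap.range f) = Fintype.card M := by
  classical
  have h1 : (univ : Finset M).card = ∑ b ∈ univ.image f, (univ.filter fun x => f x = b).card :=
    card_eq_sum_card_image f univ
  have h2 : ∀ b ∈ univ.image f, (univ.filter fun x => f x = b).card =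
      (univ.filter fun x => f x = w).card := by
    intro b hb
    obtain ⟨x, -, rfl⟩ := mem_image.1 hb
    obtain ⟨y, rfl⟩ := hw
    exact AddMonoidHom.card_fiber_eq_of_mem_range (f.toAddMonoidHom) ⟨x, rfl⟩ ⟨y, rfl⟩
  rw [sum_congr rfl h2, sum_const, smul_eq_mul] at h1
  have h3 : Nat.card (LinearMap.range f) = (univ.image f).card := by
    rw [← SetLike.coe_sort_coe, LinearMap.coe_range, Nat.card_coe_set_eq, ← Set.image_univ,
      ← coe_univ, ← coe_image, Set.ncard_coe_finset]
  rw [h3, mul_comm, ← h1]
  rfl

/-- equal ranges give equal relative sizes of fibres -/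
theorem fib_ratio (f : M →ₗ[K] W) (g : M' →ₗ[K] W) (h : LinearMap.range f = LinearMap.range g)
    {w : W} (hw : w ∈ LinearMap.range f) :
    ((univ.filter fun x => f x = w).card : ℝ) / Fintype.card M =
      ((univ.filter fun x => g x = w).card : ℝ) / Fintype.card M' := by
  have h1 := card_fib f hw
  have h2 := card_fib g (h ▸ hw)
  rw [← h] at h2
  have hM : (0 : ℝ) < Fintype.card M := by
    exact_mod_cast Fintype.card_pos_iff.2 ⟨0⟩
  have hM' : (0 : ℝ) < Fintype.card M' := by
    exact_mod_cast Fintype.card_pos_iff.2 ⟨0⟩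
  have hR : (0 : ℝ) < Nat.card (LinearMap.range f) := by
    have : 0 < Nat.card (LinearMap.range f) := Nat.card_pos
    exact_mod_cast this
  have h1' : ((univ.filter fun x => f x = w).card : ℝ) * Nat.card (LinearMap.range f) =
      Fintype.card M := by exact_mod_cast h1
  have h2' : ((univ.filter fun x => g x = w).card : ℝ) * Nat.card (LinearMap.range f) =
      Fintype.card M' := by exact_mod_cast h2
  rw [div_eq_div_iff hM.ne' hM'.ne', ← h1', ← h2']
  ring

end fib

/-- The comparison on one leaf. -/
theorem leaf {P : Type} [AddCommGroup P] [Module (ZMod q) P] [Fintype P]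
    (Φ : P →ₗ[ZMod q] (E → ZMod q)) (T : ℕ) (a : Fin T → E → ZMod q)
    (hgood : ∀ l : Fin T → ZMod q,
      (∀ p, ∑ e, (∑ i, l i * a i e) * Φ p e = 0) → ∀ e, ∑ i, l i * a i e = 0)
    (c₀ : E → ZMod q) [DecidableEq E] :
    ((univ.filter fun c : E → ZMod q => ∀ i, ∑ e, a i e * c e = ∑ e, a i e * c₀ e).card : ℝ) /
        Fintype.card (E → ZMod q) =
      ((univ.filter fun p : P => ∀ i, ∑ e, a i e * Φ p e = ∑ e, a i e * c₀ e).card : ℝ) /
        Fintype.card P := by
  classical
  let φ : (E → ZMod q) →ₗ[ZMod q] (Fin T → ZMod q) :=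
    LinearMap.pi fun i => ∑ e, a i e • LinearMap.proj e
  have hφ : ∀ c i, φ c i = ∑ e, a i e * c e := by
    intro c i
    simp [φ, LinearMap.sum_apply]
  have hr : LinearMap.range φ = LinearMap.range (φ ∘ₗ Φ) := by
    apply le_antisymm
    · rintro v ⟨c, rfl⟩
      by_contra hv
      obtain ⟨f, hf1, hf2⟩ := Submodule.exists_le_ker_of_notMem hv
      apply hf1
      have hf : ∀ w : Fin T → ZMod q, f w = ∑ i, f (Pi.single i 1) * w i := by
        intro w
        have : w = ∑ i, w i • (Pi.single i (1 : ZMod q) : Fin T → ZMod q) := by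
          ext j
          simp [Finset.sum_apply, Pi.single_apply]
        conv_lhs => rw [this]
        rw [map_sum]
        refine sum_congr rfl fun i _ => ?_
        rw [map_smul, smul_eq_mul, mul_comm]
      have key : ∀ c' : E → ZMod q, f (φ c') = ∑ e, (∑ i, f (Pi.single i 1) * a i e) * c' e := by
        intro c'
        rw [hf]
        simp only [hφ, mul_sum, sum_mul]
        rw [sum_comm]
        refine sum_congr rfl fun e _ => sum_congr rfl fun i _ => by ring
      have h0 := hgood (fun i => f (Pi.single i 1)) (by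
        intro p
        rw [← key]
        have : φ (Φ p) ∈ LinearMap.range (φ ∘ₗ Φ) := ⟨p, rfl⟩
        exact hf2 this)
      rw [key]
      exact sum_eq_zero fun e _ => by rw [h0 e, zero_mul]
    · rintro v ⟨p, rfl⟩
      exact ⟨Φ p, rfl⟩
  have h := fib_ratio φ (φ ∘ₗ Φ) hr (w := φ c₀) ⟨c₀, rfl⟩
  have e1 : (univ.filter fun c : E → ZMod q => ∀ i, ∑ e, a i e * c e = ∑ e, a i e * c₀ e) =
      univ.filter fun c => φ c = φ c₀ := by
    ext c
    simp only [mem_filter, mem_univ, true_and, funext_iff, hφ]
  have e2 : (univ.filter fun p : P => ∀ i, ∑ e, a i e * Φ p e = ∑ e, a i e * c₀ e) =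
      univ.filter fun p => (φ ∘ₗ Φ) p = φ c₀ := by
    ext c
    simp only [mem_filter, mem_univ, true_and, funext_iff, hφ, LinearMap.comp_apply]
  rw [e1, e2]
  exact h

/-- Some nonzero combination of the first `T` queries on `c` is orthogonal to the image. -/
def Bad {P : Type} [AddCommGroup P] [Module (ZMod q) P] (Φ : P →ₗ[ZMod q] (E → ZMod q))
    (ask : List (ZMod q) → E → ZMod q) (T : ℕ) (c : E → ZMod q) : Prop :=
  ∃ l : Fin T → ZMod q, (∀ p, ∑ e, (∑ i : Fin T, l i * ask (run ask c i) e) * Φ p e = 0) ∧
    ∃ e, ∑ i : Fin T, l i * ask (run ask c i) e ≠ 0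

open Classical in
/-- Comparison of the two distributions on an event of the answers. -/
theorem compare [DecidableEq E] {P : Type} [AddCommGroup P] [Module (ZMod q) P] [Fintype P]
    (Φ : P →ₗ[ZMod q] (E → ZMod q)) (ask : List (ZMod q) → E → ZMod q) (T : ℕ)
    (R : List (ZMod q) → Prop) :
    ((univ.filter fun c : E → ZMod q => R (run ask c T)).card : ℝ) / Fintype.card (E → ZMod q) ≤
      ((univ.filter fun p : P => R (run ask (Φ p) T)).card : ℝ) / Fintype.card P +
      ((univ.filter fun c : E → ZMod q => Bad Φ ask T c).card : ℝ) /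
        Fintype.card (E → ZMod q) := by
  have hC : (0 : ℝ) < Fintype.card (E → ZMod q) := by
    exact_mod_cast Fintype.card_pos_iff.2 ⟨0⟩
  have hP : (0 : ℝ) < Fintype.card P := by
    exact_mod_cast Fintype.card_pos_iff.2 ⟨0⟩
  set A := univ.filter fun c : E → ZMod q => R (run ask c T) ∧ ¬ Bad Φ ask T c with hA
  have h1 : (univ.filter fun c : E → ZMod q => R (run ask c T)).card ≤
      A.card + (univ.filter fun c : E → ZMod q => Bad Φ ask T c).card := by
    refine (card_le_card ?_).trans (card_union_le _ _)
    intro c hc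
    simp only [mem_filter, mem_univ, true_and, hA, mem_union] at hc ⊢
    tauto
  set L := A.image fun c => run ask c T with hL
  have h2 : A.card = ∑ l ∈ L, (A.filter fun c => run ask c T = l).card :=
    card_eq_sum_card_image _ _
  have h3 : ∀ l ∈ L, ((A.filter fun c => run ask c T = l).card : ℝ) / Fintype.card (E → ZMod q) ≤
      ((univ.filter fun p : P => run ask (Φ p) T = l).card : ℝ) / Fintype.card P := by
    intro l hl
    obtain ⟨c₀, hc₀, rfl⟩ := mem_image.1 hl
    have hc₁ := (mem_filter.1 hc₀).2.2
    have := leaf Φ T (fun i => ask (run ask c₀ i)) (by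
      intro l' hl' e
      by_contra hne
      exact hc₁ ⟨l', hl', e, hne⟩) c₀
    have e1 : (univ.filter fun p : P => run ask (Φ p) T = run ask c₀ T) =
        univ.filter fun p : P => ∀ i : Fin T, ∑ e, ask (run ask c₀ i) e * Φ p e =
          ∑ e, ask (run ask c₀ i) e * c₀ e := by
      ext p
      simp only [mem_filter, mem_univ, true_and]
      rw [run_eq_iff]
      exact ⟨fun h i => h i i.2, fun h i hi => h ⟨i, hi⟩⟩
    have e2 : (A.filter fun c => run ask c T = run ask c₀ T) ⊆
        univ.filter fun c : E → ZMod q => ∀ i : Fin T, ∑ e, ask (run ask c₀ i) e * c e =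
          ∑ e, ask (run ask c₀ i) e * c₀ e := by
      intro c hc
      simp only [mem_filter, mem_univ, true_and] at hc ⊢
      have := (run_eq_iff ask c c₀ T).1 hc.2
      exact fun i => this i i.2
    rw [e1, ← this]
    gcongr
  have h4 : (A.card : ℝ) / Fintype.card (E → ZMod q) ≤
      ((univ.filter fun p : P => R (run ask (Φ p) T)).card : ℝ) / Fintype.card P := by
    rw [h2]
    push_cast
    rw [sum_div]
    refine (sum_le_sum h3).trans ?_
    rw [← sum_div]
    gcongr
    rw [← Nat.cast_sum]
    have h5 : ∑ l ∈ L, (univ.filter fun p : P => run ask (Φ p) T = l).card =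
        (univ.filter fun p : P => run ask (Φ p) T ∈ L).card := by
      rw [card_eq_sum_card_fiberwise (f := fun p => run ask (Φ p) T) (t := L)]
      · refine sum_congr rfl fun l hl => ?_
        congr 1
        ext p
        simp only [mem_filter, mem_univ, true_and]
        constructor
        · rintro rfl
          exact ⟨hl, rfl⟩
        · exact fun h => h.2
      · intro p hp
        simpa using hp
    rw [h5]
    exact_mod_cast card_le_card (by
      intro p hp
      simp only [mem_filter, mem_univ, true_and] at hp ⊢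
      obtain ⟨c, hc, hc'⟩ := mem_image.1 hp
      rw [← hc']
      exact (mem_filter.1 hc).2.1)
  calc ((univ.filter fun c : E → ZMod q => R (run ask c T)).card : ℝ) / Fintype.card (E → ZMod q)
      ≤ ((A.card : ℝ) + (univ.filter fun c : E → ZMod q => Bad Φ ask T c).card) /
        Fintype.card (E → ZMod q) := by
        gcongr
        exact_mod_cast h1
    _ = (A.card : ℝ) / Fintype.card (E → ZMod q) +
        ((univ.filter fun c : E → ZMod q => Bad Φ ask T c).card : ℝ) /
          Fintype.card (E → ZMod q) := add_div _ _ _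
    _ ≤ _ := by gcongr

end Pool.Agent.T6.H63.LD
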