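import Pool.Agent.T6.H63.LD.Plant

/-!
The lower bound for randomised adaptive linear queries.
-/

set_option autoImplicit false

namespace Pool.Agent.T6.H63.LD

open Finset

variable {U V E : Type} [Fintype U] [Fintype V] [Fintype E] [DecidableEq E] {s : E → U}
  {d : E → V} {q : ℕ} [Fact q.Prime]

open Classical in
/-- the counting form of the lower bound -/
theorem core (hinj : ∀ e e', s e = s e' → d e = d e' → e = e') {r : ℕ}
    (hg : ((2 * r : ℕ) : ℕ∞) < (gr s d Set.univ).egirth) {δ ε : ℝ} (hδ : 0 < δ)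
    (hδ1 : δ ≤ 1 / 4) (hε : 0 < ε)
    (hm : 3 * ((Fintype.card U : ℝ) + Fintype.card V + 1) ≤ δ * Fintype.card E)
    (hq : 1 / δ ^ 3 ≤ q) (T : ℕ) {Ω : Type} [Fintype Ω] (w : Ω → ℝ) (hw : ∀ o, 0 ≤ w o)
    (hw1 : ∑ o, w o = 1) (ask : Ω → List (ZMod q) → E → ZMod q) (acc : Ω → List (ZMod q) → Prop)
    (hyes : ∀ c : E → ZMod q, (∃ (x : U → ZMod q) (y : V → ZMod q),
        (1 - ε) * Fintype.card E ≤ ((univ.filter fun e => y (d e) = x (s e) + c e).card : ℝ)) →
        2 / 3 ≤ ∑ o, w o * if acc o (run (ask o) c T) then 1 else 0)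
    (hno : ∀ c : E → ZMod q, (∀ (x : U → ZMod q) (y : V → ZMod q),
        ((univ.filter fun e => y (d e) = x (s e) + c e).card : ℝ) ≤ δ * Fintype.card E) →
        ∑ o, w o * (if acc o (run (ask o) c T) then 1 else 0) ≤ 1 / 3)
    (k : ℕ) [NeZero k] (hk : 8 ≤ k * ε) (W : ℕ) :
    19 / 100 ≤ (q : ℝ) ^ T * (1 - 1 / (k : ℝ)) ^ W +
      (2 * (T * W)) ^ 2 * (1 - 1 / (k : ℝ)) ^ r := by
  set η : ℝ := (q : ℝ) ^ T * (1 - 1 / (k : ℝ)) ^ W +
      (2 * (T * W)) ^ 2 * (1 - 1 / (k : ℝ)) ^ r with hη
  have hk0 : (0 : ℝ) < k := by exact_mod_cast Nat.pos_of_ne_zero (NeZero.ne k)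
  have hq0 : (0 : ℝ) < q := by exact_mod_cast (Fact.out : q.Prime).pos
  have hm0 : 0 < Fintype.card E := by
    by_contra h
    have h0 : Fintype.card E = 0 := by omega
    rw [h0] at hm
    have h1 : (0 : ℝ) ≤ Fintype.card U := by positivity
    have h2 : (0 : ℝ) ≤ Fintype.card V := by positivity
    simp only [Nat.cast_zero, mul_zero] at hm
    linarith
  have hCcard : (Fintype.card (E → ZMod q) : ℝ) = (q : ℝ) ^ Fintype.card E := by
    rw [Fintype.card_fun, ZMod.card]
    push_cast
    rfl
  set C : ℝ := (q : ℝ) ^ Fintype.card E with hC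
  set Km : ℝ := (k : ℝ) ^ Fintype.card E with hKm
  have hC0 : 0 < C := by positivity
  have hKm0 : 0 < Km := by positivity
  let P := (U → ZMod q) × (V → ZMod q) × (E → ZMod q)
  have hP0 : (0 : ℝ) < Fintype.card P := by
    exact_mod_cast Fintype.card_pos_iff.2 ⟨0⟩
  set Pc : ℝ := (Fintype.card P : ℝ) with hPc
  -- probability of rejection
  let rj : (E → ZMod q) → ℝ := fun c => ∑ o, w o * if ¬ acc o (run (ask o) c T) then 1 else 0
  have hrj : ∀ c, rj c = 1 - ∑ o, w o * if acc o (run (ask o) c T) then 1 else 0 := by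
    intro c
    have h0 : rj c + ∑ o, w o * (if acc o (run (ask o) c T) then 1 else 0) = ∑ o, w o := by
      rw [← sum_add_distrib]
      refine sum_congr rfl fun o _ => ?_
      by_cases h : acc o (run (ask o) c T) <;> simp [h]
    linarith
  have hrj0 : ∀ c, 0 ≤ rj c := fun c => sum_nonneg fun o _ => by
    have := hw o
    split_ifs <;> simp [this]
  have hrj1 : ∀ c, rj c ≤ 1 := by
    intro c
    refine le_trans (sum_le_sum fun o _ => ?_) hw1.le
    have := hw o
    split_ifs <;> simp [this]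
  -- comparison
  have hcmp : ∀ (z : E → Fin k), (∑ c, rj c) / C ≤ (∑ p : P, rj (Phi s d q z p)) / Pc +
      (∑ o, w o * ((univ.filter fun c : E → ZMod q =>
        Bad (Phi s d q z) (ask o) T c).card : ℝ)) / C := by
    intro z
    have h1 : ∀ {X : Type} [Fintype X] (f : X → E → ZMod q),
        ∑ x, rj (f x) = ∑ o, w o * ((univ.filter fun x => ¬ acc o (run (ask o) (f x) T)).card : ℝ) := by
      intro X _ f
      simp only [rj]
      rw [sum_comm]
      refine sum_congr rfl fun o _ => ?_
      rw [← mul_sum, Finset.card_filter]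
      push_cast
      rfl
    rw [h1 (fun c => c), h1 (fun p : P => Phi s d q z p), sum_div, sum_div, sum_div,
      ← sum_add_distrib]
    refine sum_le_sum fun o _ => ?_
    have h2 := compare (Phi s d q z) (ask o) T (fun l => ¬ acc o l)
    rw [hCcard] at h2
    have h3 := mul_le_mul_of_nonneg_left h2 (hw o)
    rw [mul_div_assoc, mul_div_assoc, mul_div_assoc, ← mul_add]
    convert h3
  have hsum : ∑ _z : E → Fin k, (∑ c, rj c) / C ≤
      ∑ z : E → Fin k, (∑ p : P, rj (Phi s d q z p)) / Pc +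
      ∑ z : E → Fin k, (∑ o, w o * ((univ.filter fun c : E → ZMod q =>
        Bad (Phi s d q z) (ask o) T c).card : ℝ)) / C := by
    rw [← sum_add_distrib]
    exact sum_le_sum fun z _ => hcmp z
  have hfirst : ∑ _z : E → Fin k, (∑ c, rj c) / C = Km * ((∑ c, rj c) / C) := by
    rw [sum_const, card_univ, Fintype.card_fun, Fintype.card_fin, nsmul_eq_mul]
    push_cast
    rfl
  -- the uniform distribution
  have hnull : 63 / 96 ≤ (∑ c, rj c) / C := by
    rw [le_div_iff₀ hC0]
    set S := univ.filter fun c : E → ZMod q => ∃ (x : U → ZMod q) (y : V → ZMod q),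
        δ * Fintype.card E < ((univ.filter fun e => y (d e) = x (s e) + c e).card : ℝ) with hS
    have h1 : (S.card : ℝ) ≤ C * (1 / 64) := no_card hδ hδ1 hm hq
    have h2 : ∀ c ∈ Sᶜ, 2 / 3 ≤ rj c := by
      intro c hc
      rw [hrj]
      have h3 := hno c (by
        intro x y
        by_contra h
        push Not at h
        rw [mem_compl] at hc
        apply hc
        rw [hS, mem_filter]
        exact ⟨mem_univ _, x, y, h⟩)
      linarith
    have h3 : (Sᶜ.card : ℝ) = C - S.card := by
      rw [card_compl, Nat.cast_sub (card_le_univ _), hCcard]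
    calc 63 / 96 * C ≤ (Sᶜ.card : ℝ) * (2 / 3) := by
          rw [h3]
          linarith
      _ = ∑ _c ∈ Sᶜ, (2 / 3 : ℝ) := by rw [sum_const, nsmul_eq_mul]
      _ ≤ ∑ c ∈ Sᶜ, rj c := sum_le_sum h2
      _ ≤ ∑ c, rj c := sum_le_sum_of_subset_of_nonneg (subset_univ _) fun c _ _ => hrj0 c
  -- the planted distribution
  have hplant : ∑ z : E → Fin k, (∑ p : P, rj (Phi s d q z p)) / Pc ≤ Km * (1 / 3 + 1 / 8) := by
    set Z := univ.filter fun z : E → Fin k =>
        ε * Fintype.card E < ((univ.filter fun e => z e = 0).card : ℝ) with hZ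
    have h1 : (Z.card : ℝ) ≤ Km * (1 / 8) := by
      refine (noisy_card hε hm0).trans ?_
      gcongr
    have h2 : ∀ z ∉ Z, (∑ p : P, rj (Phi s d q z p)) / Pc ≤ 1 / 3 := by
      intro z hz
      rw [div_le_iff₀ hP0]
      have h3 : ∀ p : P, rj (Phi s d q z p) ≤ 1 / 3 := by
        intro p
        rw [hrj]
        have h4 := hyes (Phi s d q z p) ⟨p.1, p.2.1, by
          have h5 : (univ.filter fun e => z e ≠ 0) ⊆
              univ.filter fun e => p.2.1 (d e) = p.1 (s e) + Phi s d q z p e := by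
            intro e he
            simp only [mem_filter, mem_univ, true_and] at he ⊢
            rw [Phi_apply, if_neg he]
            ring
          have h6 : ((univ.filter fun e => z e ≠ 0).card : ℝ) =
              Fintype.card E - (univ.filter fun e => z e = 0).card := by
            have := card_filter_add_card_filter_not (s := (univ : Finset E)) (fun e => z e = 0)
            rw [card_univ] at this
            rw [← this]
            push_cast
            ring
          have h7 : ((univ.filter fun e => z e = 0).card : ℝ) ≤ ε * Fintype.card E := by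
            by_contra h
            push Not at h
            apply hz
            rw [hZ, mem_filter]
            exact ⟨mem_univ _, h⟩
          calc (1 - ε) * (Fintype.card E : ℝ) ≤ ((univ.filter fun e => z e ≠ 0).card : ℝ) := by
                rw [h6]
                linarith
            _ ≤ _ := by exact_mod_cast card_le_card h5⟩
        linarith
      calc ∑ p : P, rj (Phi s d q z p) ≤ ∑ _p : P, (1 / 3 : ℝ) := sum_le_sum fun p _ => h3 p
        _ = 1 / 3 * Pc := by
            rw [sum_const, card_univ, nsmul_eq_mul]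
            ring
    have h3 : ∀ z, (∑ p : P, rj (Phi s d q z p)) / Pc ≤ 1 / 3 + if z ∈ Z then 1 else 0 := by
      intro z
      by_cases hz : z ∈ Z
      · rw [if_pos hz]
        have : (∑ p : P, rj (Phi s d q z p)) / Pc ≤ 1 := by
          rw [div_le_iff₀ hP0]
          calc ∑ p : P, rj (Phi s d q z p) ≤ ∑ _p : P, (1 : ℝ) := sum_le_sum fun p _ => hrj1 _
            _ = 1 * Pc := by
                rw [sum_const, card_univ, nsmul_eq_mul]
                ring
        linarith
      · rw [if_neg hz, add_zero]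
        exact h2 z hz
    calc ∑ z : E → Fin k, (∑ p : P, rj (Phi s d q z p)) / Pc
        ≤ ∑ z : E → Fin k, (1 / 3 + if z ∈ Z then (1 : ℝ) else 0) := sum_le_sum fun z _ => h3 z
      _ = Km * (1 / 3) + Z.card := by
          rw [sum_add_distrib, sum_const, card_univ, Fintype.card_fun, Fintype.card_fin,
            nsmul_eq_mul, Finset.sum_boole]
          push_cast
          congr 2
          simp
      _ ≤ _ := by linarith
  -- bad events
  have hbad : ∑ z : E → Fin k, (∑ o, w o * ((univ.filter fun c : E → ZMod q =>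
        Bad (Phi s d q z) (ask o) T c).card : ℝ)) / C ≤ Km * η := by
    rw [← sum_div, div_le_iff₀ hC0, sum_comm]
    have h1 : ∀ o, ∑ z : E → Fin k, w o * ((univ.filter fun c : E → ZMod q =>
        Bad (Phi s d q z) (ask o) T c).card : ℝ) ≤ w o * (C * (Km * η)) := by
      intro o
      rw [← mul_sum]
      refine mul_le_mul_of_nonneg_left ?_ (hw o)
      have h2 : ∑ z : E → Fin k, ((univ.filter fun c : E → ZMod q =>
          Bad (Phi s d q z) (ask o) T c).card : ℝ) =
          ∑ c : E → ZMod q, ((univ.filter fun z : E → Fin k =>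
            Bad (Phi s d q z) (ask o) T c).card : ℝ) := by
        simp only [Finset.card_filter]
        push_cast
        rw [sum_comm]
      rw [h2]
      calc _ ≤ ∑ _c : E → ZMod q, Km * η :=
            sum_le_sum fun c _ => bad_le hinj hg T W (ask o) c
        _ = _ := by
            rw [sum_const, card_univ, nsmul_eq_mul, hCcard]
    calc _ ≤ ∑ o, w o * (C * (Km * η)) := sum_le_sum fun o _ => h1 o
      _ = Km * η * C := by
          rw [← sum_mul, hw1]
          ring
  rw [hfirst] at hsum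
  have h1 : Km * (63 / 96) ≤ Km * (1 / 3 + 1 / 8 + η) := by
    calc Km * (63 / 96) ≤ Km * ((∑ c, rj c) / C) := mul_le_mul_of_nonneg_left hnull hKm0.le
      _ ≤ _ := hsum
      _ ≤ Km * (1 / 3 + 1 / 8) + Km * η := add_le_add hplant hbad
      _ = _ := by ring
  have h2 := le_of_mul_le_mul_left h1 hKm0
  linarith

open Classical in
/-- the lower bound -/
theorem lower (hinj : ∀ e e', s e = s e' → d e = d e' → e = e') {r : ℕ}
    (hg : ((2 * r : ℕ) : ℕ∞) < (gr s d Set.univ).egirth) {δ ε : ℝ} (hδ : 0 < δ)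
    (hδ1 : δ ≤ 1 / 4) (hε : 0 < ε) (hε1 : ε ≤ 1)
    (hm : 3 * ((Fintype.card U : ℝ) + Fintype.card V + 1) ≤ δ * Fintype.card E)
    (hq : 1 / δ ^ 3 ≤ q) (T : ℕ) {Ω : Type} [Fintype Ω] (w : Ω → ℝ) (hw : ∀ o, 0 ≤ w o)
    (hw1 : ∑ o, w o = 1) (ask : Ω → List (ZMod q) → E → ZMod q) (acc : Ω → List (ZMod q) → Prop)
    (hyes : ∀ c : E → ZMod q, (∃ (x : U → ZMod q) (y : V → ZMod q),
        (1 - ε) * Fintype.card E ≤ ((univ.filter fun e => y (d e) = x (s e) + c e).card : ℝ)) →
        2 / 3 ≤ ∑ o, w o * if acc o (run (ask o) c T) then 1 else 0)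
    (hno : ∀ c : E → ZMod q, (∀ (x : U → ZMod q) (y : V → ZMod q),
        ((univ.filter fun e => y (d e) = x (s e) + c e).card : ℝ) ≤ δ * Fintype.card E) →
        ∑ o, w o * (if acc o (run (ask o) c T) then 1 else 0) ≤ 1 / 3) :
    Real.exp (ε * r / 18) ≤ 54 / ε * (Real.log q + 5) * (T : ℝ) ^ 2 := by
  have hq0 : (0 : ℝ) < q := by exact_mod_cast (Fact.out : q.Prime).pos
  have hq1 : (1 : ℝ) ≤ q := by exact_mod_cast (Fact.out : q.Prime).one_lt.le
  have hlq : 0 ≤ Real.log q := Real.log_nonneg hq1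
  set k := ⌈8 / ε⌉₊ with hkdef
  have hk8 : 8 / ε ≤ k := Nat.le_ceil _
  have hk9 : (k : ℝ) ≤ 9 / ε := by
    have h1 : (k : ℝ) < 8 / ε + 1 := Nat.ceil_lt_add_one (by positivity)
    have h2 : (1 : ℝ) ≤ 1 / ε := by
      rw [le_div_iff₀ hε]
      linarith
    have h3 : 9 / ε = 8 / ε + 1 / ε := by ring
    linarith
  have hk0 : (0 : ℝ) < k := lt_of_lt_of_le (by positivity) hk8
  have hk1 : (1 : ℝ) ≤ k := by
    have : 0 < k := by exact_mod_cast hk0
    exact_mod_cast this
  have : NeZero k := ⟨by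
    have : 0 < k := by exact_mod_cast hk0
    omega⟩
  have hkε : 8 ≤ k * ε := by
    rw [div_le_iff₀ hε] at hk8
    exact hk8
  set W := ⌈(k : ℝ) * (T * Real.log q + 4)⌉₊ with hW
  have hcore := core hinj hg hδ hδ1 hε hm hq T w hw hw1 ask acc hyes hno k hkε W
  have hpow : ∀ n : ℕ, (1 - 1 / (k : ℝ)) ^ n ≤ Real.exp (-(n / k)) := by
    intro n
    have h1 : 1 - 1 / (k : ℝ) ≤ Real.exp (-(1 / k)) := by
      have := Real.add_one_le_exp (-(1 / (k : ℝ)))
      linarith
    have h0 : 0 ≤ 1 - 1 / (k : ℝ) := by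
      rw [sub_nonneg, div_le_one hk0]
      exact hk1
    calc (1 - 1 / (k : ℝ)) ^ n ≤ Real.exp (-(1 / k)) ^ n := by gcongr
      _ = Real.exp (-(n / k)) := by
          rw [← Real.exp_nat_mul]
          congr 1
          ring
  have hheavy : (q : ℝ) ^ T * (1 - 1 / (k : ℝ)) ^ W ≤ 1 / 50 := by
    have h1 : T * Real.log q + 4 ≤ (W : ℝ) / k := by
      rw [le_div_iff₀ hk0, mul_comm]
      exact Nat.le_ceil _
    have h2 : (q : ℝ) ^ T = Real.exp (T * Real.log q) := by
      rw [mul_comm, Real.exp_mul, Real.exp_log hq0, Real.rpow_natCast]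
    calc (q : ℝ) ^ T * (1 - 1 / (k : ℝ)) ^ W
        ≤ Real.exp (T * Real.log q) * Real.exp (-(W / k)) := by
          rw [h2]
          gcongr
          exact hpow W
      _ = Real.exp (T * Real.log q - W / k) := by
          rw [← Real.exp_add]
          ring_nf
      _ ≤ Real.exp (-4) := by
          apply Real.exp_le_exp.2
          linarith
      _ ≤ 1 / 50 := by
          rw [Real.exp_neg, one_div]
          apply inv_anti₀ (by norm_num)
          have h3 : Real.exp 4 = Real.exp 1 ^ 4 := by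
            rw [← Real.exp_nat_mul]
            norm_num
          rw [h3]
          have h4 := Real.exp_one_gt_d9
          calc (50 : ℝ) ≤ 2.7 ^ 4 := by norm_num
            _ ≤ Real.exp 1 ^ 4 := by
              gcongr
              linarith
  have hlight : 1 / 8 ≤ (2 * ((T : ℝ) * W)) ^ 2 * Real.exp (-(r / k)) := by
    have h1 : (2 * ((T : ℝ) * W)) ^ 2 * (1 - 1 / (k : ℝ)) ^ r ≤
        (2 * ((T : ℝ) * W)) ^ 2 * Real.exp (-(r / k)) := by
      gcongr
      exact hpow r
    linarith
  have hT : (1 : ℝ) ≤ T := by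
    rcases Nat.eq_zero_or_pos T with h0 | h0
    · rw [h0] at hlight
      norm_num at hlight
    · exact_mod_cast h0
  have hWle : (W : ℝ) ≤ k * T * (Real.log q + 5) := by
    have h1 : (W : ℝ) < k * (T * Real.log q + 4) + 1 := Nat.ceil_lt_add_one (by positivity)
    have h2 : (1 : ℝ) ≤ k * T := by nlinarith
    nlinarith
  have h5 : Real.exp (r / k) ≤ (6 * k * T ^ 2 * (Real.log q + 5)) ^ 2 := by
    have h6 : Real.exp (r / k) ≤ 32 * (T * W) ^ 2 := by
      have h7 : Real.exp (-(r / k)) * Real.exp (r / k) = 1 := by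
        rw [← Real.exp_add]
        simp
      have h8 := mul_le_mul_of_nonneg_right hlight (Real.exp_pos ((r : ℝ) / k)).le
      rw [mul_assoc, h7, mul_one] at h8
      linarith [mul_pow (2 : ℝ) ((T : ℝ) * W) 2]
    calc Real.exp (r / k) ≤ 32 * (T * W) ^ 2 := h6
      _ ≤ 32 * (T * (k * T * (Real.log q + 5))) ^ 2 := by gcongr
      _ ≤ _ := by
        have h9 : (6 * (k : ℝ) * T ^ 2 * (Real.log q + 5)) ^ 2 =
            36 * (T * (k * T * (Real.log q + 5))) ^ 2 := by ring
        rw [h9]
        have : 0 ≤ ((T : ℝ) * (k * T * (Real.log q + 5))) ^ 2 := sq_nonneg _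
        linarith
  have h6 : Real.exp (r / (2 * k)) ≤ 6 * k * T ^ 2 * (Real.log q + 5) := by
    have h7 : Real.exp ((r : ℝ) / (2 * k)) ^ 2 = Real.exp (r / k) := by
      rw [← Real.exp_nat_mul]
      congr 1
      push_cast
      field_simp
    rw [← h7] at h5
    exact le_of_sq_le_sq h5 (by positivity)
  calc Real.exp (ε * r / 18) ≤ Real.exp (r / (2 * k)) := by
        apply Real.exp_le_exp.2
        rw [div_le_div_iff₀ (by norm_num) (by positivity)]
        have h7 : (k : ℝ) * ε ≤ 9 := by
          rw [le_div_iff₀ hε] at hk9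
          exact hk9
        have h8 : (0 : ℝ) ≤ r := by positivity
        nlinarith
    _ ≤ 6 * k * T ^ 2 * (Real.log q + 5) := h6
    _ ≤ 6 * (9 / ε) * T ^ 2 * (Real.log q + 5) := by gcongr
    _ = _ := by ring

end Pool.Agent.T6.H63.LD
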