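import Pool.Agent.T6.H63.LD.Main
import Pool.Agent.T6.H63.LD.Graph

/-!
Perfect completeness: one random linear query.
-/

set_option autoImplicit false

namespace Pool.Agent.T6.H63.LD

open Finset

section perfect

variable {U V E : Type} {q : ℕ}

/-- shifts of a satisfied instance -/
def Psi (s : E → U) (d : E → V) (q : ℕ) :
    ((U → ZMod q) × (V → ZMod q)) →ₗ[ZMod q] (E → ZMod q) where
  toFun p e := p.2 (d e) - p.1 (s e)
  map_add' p p' := by
    ext e
    simp only [Prod.snd_add, Prod.fst_add, Pi.add_apply]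
    ring
  map_smul' c p := by
    ext e
    simp only [Prod.smul_snd, Prod.smul_fst, Pi.smul_apply, smul_eq_mul, RingHom.id_apply]
    ring

theorem Psi_apply (s : E → U) (d : E → V) (p : (U → ZMod q) × (V → ZMod q)) (e : E) :
    Psi s d q p e = p.2 (d e) - p.1 (s e) := rfl

variable [Fintype E] [Fact q.Prime]

/-- forms orthogonal to the satisfied instances -/
def Orth (s : E → U) (d : E → V) (q : ℕ) [Fact q.Prime] : Submodule (ZMod q) (E → ZMod q) where
  carrier := {a | ∀ p, ∑ e, a e * Psi s d q p e = 0}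
  add_mem' {a b} ha hb := by
    intro p
    simp only [Pi.add_apply, add_mul, sum_add_distrib]
    rw [ha p, hb p, add_zero]
  zero_mem' := by
    intro p
    simp
  smul_mem' c a ha := by
    intro p
    simp only [Pi.smul_apply, smul_eq_mul, mul_assoc]
    rw [← mul_sum, ha p, mul_zero]

theorem exists_orth (s : E → U) (d : E → V) (c : E → ZMod q)
    (hc : c ∉ LinearMap.range (Psi s d q)) : ∃ a ∈ Orth s d q, ∑ e, a e * c e ≠ 0 := by
  classical
  obtain ⟨f, hf1, hf2⟩ := Submodule.exists_le_ker_of_notMem hc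
  have hf : ∀ w : E → ZMod q, f w = ∑ i, f (Pi.single i 1) * w i := by
    intro w
    have : w = ∑ i, w i • (Pi.single i (1 : ZMod q) : E → ZMod q) := by
      ext j
      simp [Finset.sum_apply, Pi.single_apply]
    conv_lhs => rw [this]
    rw [map_sum]
    refine sum_congr rfl fun i _ => ?_
    rw [map_smul, smul_eq_mul, mul_comm]
  refine ⟨fun e => f (Pi.single e 1), ?_, ?_⟩
  · intro p
    rw [← hf]
    have : Psi s d q p ∈ LinearMap.range (Psi s d q) := ⟨p, rfl⟩
    exact hf2 this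
  · rw [← hf]
    exact hf1

open Classical in
theorem orth_count (s : E → U) (d : E → V) (c : E → ZMod q)
    (hc : c ∉ LinearMap.range (Psi s d q)) :
    (univ.filter fun a : Orth s d q => ∑ e, a.1 e * c e = 0).card * q =
      Fintype.card (Orth s d q) := by
  obtain ⟨a0, ha0, hne⟩ := exists_orth s d c hc
  let L : Orth s d q →ₗ[ZMod q] ZMod q :=
    { toFun := fun a => ∑ e, a.1 e * c e
      map_add' := by
        intro a b
        simp only [Submodule.coe_add, Pi.add_apply, add_mul, sum_add_distrib]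
      map_smul' := by
        intro t a
        simp only [Submodule.coe_smul, Pi.smul_apply, smul_eq_mul, mul_assoc, RingHom.id_apply]
        rw [mul_sum] }
  have hL : ∀ a, L a = ∑ e, a.1 e * c e := fun _ => rfl
  have hsurj : LinearMap.range L = ⊤ := by
    rw [LinearMap.range_eq_top]
    intro t
    refine ⟨(t * (∑ e, a0 e * c e)⁻¹) • ⟨a0, ha0⟩, ?_⟩
    rw [map_smul, hL, smul_eq_mul, mul_assoc, inv_mul_cancel₀ hne, mul_one]
  have h := card_fib L (w := 0) ⟨0, map_zero L⟩
  rw [hsurj] at h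
  have h2 : Nat.card (⊤ : Submodule (ZMod q) (ZMod q)) = q := by
    rw [Nat.card_congr (Submodule.topEquiv (R := ZMod q) (M := ZMod q)).toEquiv, Nat.card_zmod]
  rw [h2] at h
  exact h

end perfect

open Classical in
/-- One random query decides satisfiability. -/
theorem perfect {U V E : Type} [Fintype E] (s : E → U) (d : E → V) (q : ℕ) [Fact q.Prime] :
    ∃ (Ω : Type) (_ : Fintype Ω) (w : Ω → ℝ) (ask : Ω → List (ZMod q) → E → ZMod q)
      (acc : Ω → List (ZMod q) → Prop), (∀ o, 0 ≤ w o) ∧ ∑ o, w o = 1 ∧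
      ∀ c : E → ZMod q,
        ((∃ (x : U → ZMod q) (y : V → ZMod q), ∀ e, y (d e) = x (s e) + c e) →
          ∑ o, w o * (if acc o (run (ask o) c 1) then 1 else 0) = 1) ∧
        ((¬ ∃ (x : U → ZMod q) (y : V → ZMod q), ∀ e, y (d e) = x (s e) + c e) →
          ∑ o, w o * (if acc o (run (ask o) c 1) then 1 else 0) = 1 / (q : ℝ)) := by
  have hq0 : (0 : ℝ) < q := by exact_mod_cast (Fact.out : q.Prime).pos
  have hF : (0 : ℝ) < Fintype.card (Orth s d q) := by
    exact_mod_cast Fintype.card_pos_iff.2 ⟨0⟩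
  refine ⟨Orth s d q, inferInstance, fun _ => 1 / Fintype.card (Orth s d q),
    fun a _ => a.1, fun _ l => l = [0], fun _ => by positivity, ?_, ?_⟩
  · rw [sum_const, card_univ, nsmul_eq_mul]
    field_simp
  intro c
  have hrun : ∀ a : Orth s d q, (run (fun _ => a.1) c 1 = [0]) ↔ ∑ e, a.1 e * c e = 0 := by
    intro a
    simp [run]
  have hrange : (∃ (x : U → ZMod q) (y : V → ZMod q), ∀ e, y (d e) = x (s e) + c e) ↔
      c ∈ LinearMap.range (Psi s d q) := by
    constructor
    · rintro ⟨x, y, h⟩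
      refine ⟨(x, y), ?_⟩
      ext e
      rw [Psi_apply]
      simp only
      rw [h e]
      ring
    · rintro ⟨p, rfl⟩
      exact ⟨p.1, p.2, fun e => by rw [Psi_apply]; ring⟩
  simp only [hrun]
  rw [hrange]
  constructor
  · rintro ⟨p, rfl⟩
    have h1 : ∀ a : Orth s d q, (∑ e, a.1 e * Psi s d q p e = 0) := fun a => a.2 p
    simp only [h1, if_true, mul_one]
    rw [sum_const, card_univ, nsmul_eq_mul]
    field_simp
  · intro hc
    have h1 := orth_count s d c hc
    rw [← mul_sum, Finset.sum_boole]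
    have h2 : ((univ.filter fun a : Orth s d q => ∑ e, a.1 e * c e = 0).card : ℝ) * q =
        Fintype.card (Orth s d q) := by exact_mod_cast h1
    rw [← h2]
    have h3 : ((univ.filter fun a : Orth s d q => ∑ e, a.1 e * c e = 0).card : ℝ) ≠ 0 := by
      intro h0
      rw [h0, zero_mul] at h2
      exact hF.ne h2
    field_simp

open Classical in
/-- The lower bound on a graph with `15 N / δ` edges. -/
theorem lower_graph {δ ε : ℝ} (hδ : 0 < δ) (hδ1 : δ ≤ 1 / 4) (hε : 0 < ε) (hε1 : ε ≤ 1) (N : ℕ)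
    (hN : 1 / δ ^ 7 ≤ N) :
    ∃ H : Finset (Fin N × Fin N), (H.card : ℝ) ≤ 15 * N / δ ∧
      ∀ (q : ℕ) [Fact q.Prime], 1 / δ ^ 3 ≤ q → ∀ (T : ℕ) (Ω : Type) [Fintype Ω] (w : Ω → ℝ),
      (∀ o, 0 ≤ w o) → ∑ o, w o = 1 → ∀ (ask : Ω → List (ZMod q) → H → ZMod q)
      (acc : Ω → List (ZMod q) → Prop),
      (∀ c : H → ZMod q, (∃ x y : Fin N → ZMod q,
        (1 - ε) * Fintype.card H ≤ ((univ.filter fun e : H => y e.1.2 = x e.1.1 + c e).card : ℝ)) →
        2 / 3 ≤ ∑ o, w o * if acc o (run (ask o) c T) then 1 else 0) →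
      (∀ c : H → ZMod q, (∀ x y : Fin N → ZMod q,
        ((univ.filter fun e : H => y e.1.2 = x e.1.1 + c e).card : ℝ) ≤ δ * Fintype.card H) →
        ∑ o, w o * (if acc o (run (ask o) c T) then 1 else 0) ≤ 1 / 3) →
      (N : ℝ) ^ (ε / (108 * Real.log (1 / δ))) ≤ 130 * (Real.log q / ε) * (T : ℝ) ^ 2 := by
  set D := ⌈14 / δ⌉₊ with hD
  set L := Real.log (1 / δ) with hL
  have hδinv : 4 ≤ 1 / δ := by
    rw [le_div_iff₀ hδ]
    linarith
  have hlog4 : 1.386 ≤ Real.log 4 := by
    have h1 : Real.log 4 = 2 * Real.log 2 := by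
      rw [show (4 : ℝ) = 2 ^ 2 by norm_num, Real.log_pow]
      norm_num
    have := Real.log_two_gt_d9
    rw [h1]
    linarith
  have hL4 : 1.386 ≤ L := hlog4.trans (Real.log_le_log (by norm_num) hδinv)
  have hL0 : 0 < L := by linarith
  have hexpL : Real.exp L = 1 / δ := Real.exp_log (by positivity)
  have hD14 : 14 / δ ≤ D := Nat.le_ceil _
  have hD15 : (D : ℝ) ≤ 14 / δ + 1 := (Nat.ceil_lt_add_one (by positivity)).le
  have hD1 : (D : ℝ) + 1 ≤ (1 / δ) ^ 3 := by
    have h1 : (14 : ℝ) / δ = 14 * (1 / δ) := by ring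
    have h2 : (16 : ℝ) * (1 / δ) ≤ (1 / δ) ^ 3 := by
      have h3 : (4 : ℝ) ^ 2 ≤ (1 / δ) ^ 2 := by gcongr
      calc (16 : ℝ) * (1 / δ) = 4 ^ 2 * (1 / δ) := by norm_num
        _ ≤ (1 / δ) ^ 2 * (1 / δ) := by gcongr
        _ = _ := by ring
    linarith
  have hNpos : (4 : ℝ) ^ 7 ≤ N := by
    refine le_trans ?_ hN
    rw [← one_div_pow]
    gcongr
  have hN0 : (0 : ℝ) < N := lt_of_lt_of_le (by norm_num) hNpos
  set r := ⌊Real.log (N / 2) / (6 * L)⌋₊ with hr
  have hlogN : 0 ≤ Real.log (N / 2) := Real.log_nonneg (by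
    rw [le_div_iff₀ (by norm_num)]
    linarith)
  have hr1 : 1 ≤ r := by
    rw [hr, Nat.one_le_floor_iff, le_div_iff₀ (by positivity), one_mul]
    rw [Real.le_log_iff_exp_le (by positivity)]
    have h1 : Real.exp (6 * L) = (1 / δ) ^ 6 := by
      rw [← hexpL, ← Real.exp_nat_mul]
      norm_num
    rw [h1, le_div_iff₀ (by norm_num)]
    calc (1 / δ) ^ 6 * 2 ≤ (1 / δ) ^ 6 * (1 / δ) := by
          gcongr
          linarith
      _ = 1 / δ ^ 7 := by
          rw [← pow_succ, one_div_pow]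
      _ ≤ N := hN
  have hrle : (r : ℝ) ≤ Real.log (N / 2) / (6 * L) := Nat.floor_le (by positivity)
  have hrge : Real.log (N / 2) / (6 * L) - 1 ≤ r := by
    have := Nat.lt_floor_add_one (Real.log (N / 2) / (6 * L))
    linarith
  have hND : 2 * (D + 1) ^ (2 * r) ≤ N := by
    have h1 : ((D : ℝ) + 1) ^ (2 * r) ≤ N / 2 := by
      calc ((D : ℝ) + 1) ^ (2 * r) ≤ ((1 / δ) ^ 3) ^ (2 * r) := by gcongr
        _ = Real.exp (r * (6 * L)) := by
            rw [← pow_mul, ← hexpL, ← Real.exp_nat_mul]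
            congr 1
            push_cast
            ring
        _ ≤ Real.exp (Real.log (N / 2)) := by
            apply Real.exp_le_exp.2
            rwa [le_div_iff₀ (by positivity)] at hrle
        _ = N / 2 := Real.exp_log (by positivity)
    have h2 : (2 : ℝ) * ((D : ℝ) + 1) ^ (2 * r) ≤ N := by linarith
    exact_mod_cast h2
  obtain ⟨H, hH1, hH2, hH3⟩ := exists_graph N D r hr1 hND
  refine ⟨H, ?_, ?_⟩
  · have h1 : (H.card : ℝ) ≤ N * D := by exact_mod_cast hH2
    calc (H.card : ℝ) ≤ N * D := h1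
      _ ≤ N * (14 / δ + 1) := by gcongr
      _ ≤ N * (15 / δ) := by
          gcongr
          have : (15 : ℝ) / δ = 14 / δ + 1 / δ := by ring
          linarith
      _ = _ := by ring
  intro q _ hq T Ω _ w hw hw1 ask acc hyes hno
  have hgr : gr (fun e : H => e.1.1) (fun e : H => e.1.2) Set.univ = grH H := by
    ext x y
    constructor
    · rintro ⟨e, -, he⟩
      exact ⟨e.1, e.2, he⟩
    · rintro ⟨e, he, he'⟩
      exact ⟨⟨e, he⟩, Set.mem_univ _, he'⟩
  have hg : ((2 * r : ℕ) : ℕ∞) <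
      (gr (fun e : H => e.1.1) (fun e : H => e.1.2) Set.univ).egirth := by
    rw [hgr]
    exact hH3
  have hcardH : Fintype.card H = H.card := Fintype.card_coe H
  have hm : 3 * ((Fintype.card (Fin N) : ℝ) + Fintype.card (Fin N) + 1) ≤
      δ * Fintype.card H := by
    rw [hcardH, Fintype.card_fin]
    have h1 : (N : ℝ) * D ≤ 2 * H.card := by exact_mod_cast hH1
    have h2 : (N : ℝ) * (14 / δ) ≤ 2 * H.card := le_trans (by gcongr) h1
    have h3 : (N : ℝ) * (14 / δ) * δ ≤ 2 * H.card * δ := by gcongr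
    have h4 : (N : ℝ) * (14 / δ) * δ = 14 * N := by
      field_simp
    rw [h4] at h3
    nlinarith
  have hmain := lower (s := fun e : H => e.1.1) (d := fun e : H => e.1.2)
    (fun e e' h1 h2 => Subtype.ext (Prod.ext h1 h2)) hg hδ hδ1 hε hε1 hm hq T w hw hw1 ask acc
    (by
      intro c hc
      refine hyes c ?_
      obtain ⟨x, y, hxy⟩ := hc
      refine ⟨x, y, ?_⟩
      convert hxy) (by
      intro c hc
      refine hno c ?_
      intro x y
      convert hc x y)
  have hq64 : (64 : ℝ) ≤ q := by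
    refine le_trans ?_ hq
    rw [← one_div_pow]
    calc (64 : ℝ) = 4 ^ 3 := by norm_num
      _ ≤ (1 / δ) ^ 3 := by gcongr
  have hlq : 4.158 ≤ Real.log q := by
    have h1 : Real.log 64 ≤ Real.log q := Real.log_le_log (by norm_num) hq64
    have h2 : Real.log 64 = 3 * Real.log 4 := by
      rw [show (64 : ℝ) = 4 ^ 3 by norm_num, Real.log_pow]
      norm_num
    linarith
  have hpowN : (N : ℝ) ^ (ε / (108 * L)) ≤ 1.08 * Real.exp (ε * r / 18) := by
    have h1 : (N : ℝ) ^ (ε / (108 * L)) = Real.exp (Real.log N * (ε / (108 * L))) := by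
      rw [Real.rpow_def_of_pos hN0]
    rw [h1]
    have h2 : Real.log N = Real.log (N / 2) + Real.log 2 := by
      rw [← Real.log_mul (by positivity) (by norm_num)]
      congr 1
      ring
    have h3 : Real.log N * (ε / (108 * L)) ≤ 0.07 + ε * r / 18 := by
      have h4 : Real.log (N / 2) * (ε / (108 * L)) = ε / 18 * (Real.log (N / 2) / (6 * L)) := by
        field_simp
        ring
      have h5 : ε / 18 * (Real.log (N / 2) / (6 * L)) ≤ ε / 18 * (r + 1) := by
        gcongr
        linarith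
      have h6 : Real.log 2 * (ε / (108 * L)) ≤ 0.01 := by
        have h7 : ε / (108 * L) ≤ 1 / (108 * 1.386) := by
          gcongr
        have h8 := Real.log_two_lt_d9
        have h9 : 0 ≤ ε / (108 * L) := by positivity
        have h10 : 0 ≤ Real.log 2 := Real.log_nonneg (by norm_num)
        calc Real.log 2 * (ε / (108 * L)) ≤ 0.7 * (1 / (108 * 1.386)) := by
              gcongr
              linarith
          _ ≤ 0.01 := by norm_num
      rw [h2, add_mul, h4]
      nlinarith
    calc Real.exp (Real.log N * (ε / (108 * L))) ≤ Real.exp (0.07 + ε * r / 18) :=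
          Real.exp_le_exp.2 h3
      _ = Real.exp 0.07 * Real.exp (ε * r / 18) := Real.exp_add _ _
      _ ≤ 1.08 * Real.exp (ε * r / 18) := by
          gcongr
          have := Real.exp_bound' (x := 0.07) (by norm_num) (by norm_num) (n := 3) (by norm_num)
          refine this.trans ?_
          simp [Finset.sum_range_succ, Nat.factorial]
          norm_num
  calc (N : ℝ) ^ (ε / (108 * L)) ≤ 1.08 * Real.exp (ε * r / 18) := hpowN
    _ ≤ 1.08 * (54 / ε * (Real.log q + 5) * (T : ℝ) ^ 2) := by gcongr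
    _ ≤ 1.08 * (54 / ε * (2.2029 * Real.log q) * (T : ℝ) ^ 2) := by
        gcongr
        linarith
    _ = 1.08 * 54 * 2.2029 * (Real.log q / ε) * (T : ℝ) ^ 2 := by ring
    _ ≤ 130 * (Real.log q / ε) * (T : ℝ) ^ 2 := by
        gcongr
        norm_num

end Pool.Agent.T6.H63.LD
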