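import Pool.Agent.T6.H63.LD.Flow

/-!
The planted distribution, and the counts of the instances which are not of small value.
-/

set_option autoImplicit false

namespace Pool.Agent.T6.H63.LD

open Finset

variable {U V E : Type} {s : E → U} {d : E → V} {q : ℕ} {k : ℕ} [NeZero k]

/-- shifts of the planted instance: clean edges (`z e ≠ 0`) agree with the labels, the other edges
are arbitrary -/
def Phi (s : E → U) (d : E → V) (q : ℕ) (z : E → Fin k) :
    ((U → ZMod q) × (V → ZMod q) × (E → ZMod q)) →ₗ[ZMod q] (E → ZMod q) where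
  toFun p e := if z e = 0 then p.2.2 e else p.2.1 (d e) - p.1 (s e)
  map_add' p p' := by
    ext e
    simp only [Prod.snd_add, Prod.fst_add, Pi.add_apply]
    split_ifs
    · rfl
    · ring
  map_smul' c p := by
    ext e
    simp only [Prod.smul_snd, Prod.smul_fst, Pi.smul_apply, smul_eq_mul, RingHom.id_apply]
    split_ifs
    · rfl
    · ring

theorem Phi_apply (z : E → Fin k) (p : (U → ZMod q) × (V → ZMod q) × (E → ZMod q)) (e : E) :
    Phi s d q z p e = if z e = 0 then p.2.2 e else p.2.1 (d e) - p.1 (s e) := rfl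

variable [Fintype E] [Fact q.Prime]

/-- A form orthogonal to the planted instances is a flow with clean support. -/
theorem orth (z : E → Fin k) (a : E → ZMod q) (h : ∀ p, ∑ e, a e * Phi s d q z p e = 0) :
    (∀ e, a e ≠ 0 → z e ≠ 0) ∧ IsFlow s d a := by
  classical
  have h1 : ∀ e, a e ≠ 0 → z e ≠ 0 := by
    intro e he hz
    apply he
    have := h (0, 0, Pi.single e 1)
    simp only [Phi_apply] at this
    rw [sum_eq_single e] at this
    · simpa [hz] using this
    · intro e' _ hne
      simp [hne]
    · simp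
  refine ⟨h1, ?_, ?_⟩
  · intro u
    have := h (Pi.single u 1, 0, 0)
    have e1 : ∑ e, a e * Phi s d q z (Pi.single u 1, 0, 0) e =
        - ∑ e ∈ univ.filter (fun e => s e = u), a e := by
      rw [sum_filter, ← sum_neg_distrib]
      refine sum_congr rfl fun e _ => ?_
      by_cases hz : z e = 0
      · have : a e = 0 := by
          by_contra hne
          exact h1 e hne hz
        simp [this]
      · simp only [Phi_apply, hz, if_false, Pi.zero_apply, zero_sub, Pi.single_apply]
        split_ifs <;> simp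
    rw [e1] at this
    exact neg_eq_zero.1 this
  · intro v
    have := h (0, Pi.single v 1, 0)
    have e1 : ∑ e, a e * Phi s d q z (0, Pi.single v 1, 0) e =
        ∑ e ∈ univ.filter (fun e => d e = v), a e := by
      rw [sum_filter]
      refine sum_congr rfl fun e _ => ?_
      by_cases hz : z e = 0
      · have : a e = 0 := by
          by_contra hne
          exact h1 e hne hz
        simp [this]
      · simp only [Phi_apply, hz, if_false, Pi.zero_apply, sub_zero, Pi.single_apply]
        split_ifs <;> simp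
    rw [e1] at this
    exact this

open Classical in
theorem bad_le [DecidableEq E] [Finite U] [Finite V]
    (hinj : ∀ e e', s e = s e' → d e = d e' → e = e') {r : ℕ}
    (hg : ((2 * r : ℕ) : ℕ∞) < (gr s d Set.univ).egirth) (T W : ℕ)
    (ask : List (ZMod q) → E → ZMod q) (c : E → ZMod q) :
    ((univ.filter fun z : E → Fin k => Bad (Phi s d q z) ask T c).card : ℝ) ≤
      (k : ℝ) ^ Fintype.card E * ((q : ℝ) ^ T * (1 - 1 / (k : ℝ)) ^ W +
        (2 * (T * W)) ^ 2 * (1 - 1 / (k : ℝ)) ^ r) := by
  refine le_trans ?_ (bad_card (k := k) hinj hg T W (fun i => ask (run ask c i)))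
  norm_cast
  apply card_le_card
  intro z hz
  simp only [mem_filter, mem_univ, true_and] at hz ⊢
  obtain ⟨l, hl1, hl2⟩ := hz
  obtain ⟨h1, h2⟩ := orth z _ hl1
  exact ⟨l, h2, hl2, h1⟩

omit [Fintype E] [Fact q.Prime] in
open Classical in
theorem noisy_card [Fintype E] [DecidableEq E] {ε : ℝ} (hε : 0 < ε) (hm : 0 < Fintype.card E) :
    ((univ.filter fun z : E → Fin k =>
        ε * Fintype.card E < ((univ.filter fun e => z e = 0).card : ℝ)).card : ℝ) ≤
      (k : ℝ) ^ Fintype.card E * (1 / (k * ε)) := by
  have hk : (0 : ℝ) < k := by exact_mod_cast Nat.pos_of_ne_zero (NeZero.ne k)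
  have hm' : (0 : ℝ) < Fintype.card E := by exact_mod_cast hm
  have h1 : ∑ z : E → Fin k, ((univ.filter fun e => z e = 0).card : ℝ) =
      Fintype.card E * ((k : ℝ) ^ Fintype.card E * (1 / k)) := by
    have e1 : ∀ z : E → Fin k, ((univ.filter fun e => z e = 0).card : ℝ) =
        ∑ e, if z e = 0 then (1 : ℝ) else 0 := by
      intro z
      simp
    simp only [e1]
    rw [sum_comm]
    have e2 : ∀ e : E, ∑ z : E → Fin k, (if z e = 0 then (1 : ℝ) else 0) =
        (k : ℝ) ^ Fintype.card E * (1 / k) := by
      intro e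
      have h2 := clean_card (k := k) ({e} : Finset E)
      have h3 : ∑ z : E → Fin k, (if z e = 0 then (1 : ℝ) else 0) +
          ((univ.filter fun z : E → Fin k => ∀ e' ∈ ({e} : Finset E), z e' ≠ 0).card : ℝ) =
          (k : ℝ) ^ Fintype.card E := by
        have h4 : ((univ.filter fun z : E → Fin k =>
            ∀ e' ∈ ({e} : Finset E), z e' ≠ 0).card : ℝ) =
            ∑ z : E → Fin k, if z e = 0 then (0 : ℝ) else 1 := by
          simp only [mem_singleton, forall_eq]
          rw [Finset.card_filter]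
          push_cast
          exact sum_congr rfl fun z _ => by split_ifs <;> simp_all
        rw [h4, ← sum_add_distrib]
        have h5 : ∀ z : E → Fin k, (if z e = 0 then (1 : ℝ) else 0) +
            (if z e = 0 then (0 : ℝ) else 1) = 1 := fun z => by split_ifs <;> simp
        simp only [h5, sum_const, card_univ, Fintype.card_fun, Fintype.card_fin, nsmul_eq_mul,
          mul_one]
        push_cast
        rfl
      rw [h2, card_singleton, pow_one] at h3
      linarith
    simp only [e2]
    rw [sum_const, card_univ, nsmul_eq_mul]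
  set S := univ.filter fun z : E → Fin k =>
        ε * Fintype.card E < ((univ.filter fun e => z e = 0).card : ℝ) with hS
  have h2 : (S.card : ℝ) * (ε * Fintype.card E) ≤
      ∑ z : E → Fin k, ((univ.filter fun e => z e = 0).card : ℝ) := by
    rw [← nsmul_eq_mul, ← sum_const]
    refine (sum_le_sum fun z hz => ?_).trans
      (sum_le_sum_of_subset_of_nonneg (subset_univ S) fun z _ _ => by positivity)
    exact (mem_filter.1 hz).2.le
  rw [h1] at h2
  have h3 : (S.card : ℝ) * (ε * Fintype.card E) * (1 / (ε * Fintype.card E)) ≤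
      Fintype.card E * ((k : ℝ) ^ Fintype.card E * (1 / k)) * (1 / (ε * Fintype.card E)) := by
    gcongr
  have e3 : (S.card : ℝ) * (ε * Fintype.card E) * (1 / (ε * Fintype.card E)) = S.card := by
    field_simp
  have e4 : Fintype.card E * ((k : ℝ) ^ Fintype.card E * (1 / k)) * (1 / (ε * Fintype.card E)) =
      (k : ℝ) ^ Fintype.card E * (1 / (k * ε)) := by
    field_simp
  rw [e3, e4] at h3
  exact h3

/-- Chernoff bound for one labeling. -/
theorem chern [DecidableEq E] (g : E → ZMod q) {t lam : ℝ} (hl : 1 ≤ lam) :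
    ((univ.filter fun c : E → ZMod q =>
        t < ((univ.filter fun e => c e = g e).card : ℝ)).card : ℝ) * lam ^ t ≤
      ((q : ℝ) - 1 + lam) ^ Fintype.card E := by
  have hl0 : 0 < lam := by linarith
  have h1 : ∑ c : E → ZMod q, ∏ e, (if c e = g e then lam else 1) =
      ((q : ℝ) - 1 + lam) ^ Fintype.card E := by
    have := Finset.prod_univ_sum (fun _ : E => (univ : Finset (ZMod q)))
      (fun e x => if x = g e then lam else (1 : ℝ))
    rw [Fintype.piFinset_univ] at this
    rw [← this]
    have h2 : ∀ e : E, ∑ x : ZMod q, (if x = g e then lam else (1 : ℝ)) = (q : ℝ) - 1 + lam := by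
      intro e
      rw [Finset.sum_ite, sum_const, sum_const]
      have h3 : (univ.filter fun x : ZMod q => x = g e).card = 1 := by
        rw [Finset.filter_eq' univ (g e)]
        simp
      have h4 : (univ.filter fun x : ZMod q => ¬ x = g e).card = q - 1 := by
        rw [Finset.filter_not, Finset.card_sdiff_of_subset (filter_subset _ _), h3, card_univ,
          ZMod.card]
      rw [h3, h4, nsmul_eq_mul, nsmul_eq_mul, Nat.cast_sub (Fact.out : q.Prime).one_lt.le]
      push_cast
      ring
    simp only [h2, prod_const, card_univ]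
  rw [← h1, ← nsmul_eq_mul, ← sum_const]
  refine (sum_le_sum fun c hc => ?_).trans
    (sum_le_sum_of_subset_of_nonneg (subset_univ _) fun c _ _ => ?_)
  · rw [prod_ite, prod_const, prod_const_one, mul_one, ← Real.rpow_natCast]
    exact Real.rpow_le_rpow_of_exponent_le hl (mem_filter.1 hc).2.le
  · exact prod_nonneg fun e _ => by split_ifs <;> linarith

open Classical in
theorem no_card [DecidableEq E] [Fintype U] [Fintype V] {δ : ℝ} (hδ : 0 < δ) (hδ1 : δ ≤ 1 / 4)
    (hm : 3 * ((Fintype.card U : ℝ) + Fintype.card V + 1) ≤ δ * Fintype.card E)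
    (hq : 1 / δ ^ 3 ≤ q) :
    ((univ.filter fun c : E → ZMod q => ∃ (x : U → ZMod q) (y : V → ZMod q),
        δ * Fintype.card E < ((univ.filter fun e => y (d e) = x (s e) + c e).card : ℝ)).card : ℝ)
      ≤ (q : ℝ) ^ Fintype.card E * (1 / 64) := by
  have hq0 : (0 : ℝ) < q := by exact_mod_cast (Fact.out : q.Prime).pos
  have hq64 : (64 : ℝ) ≤ q := by
    refine le_trans ?_ hq
    rw [le_div_iff₀ (by positivity)]
    have : δ ^ 3 ≤ (1 / 4) ^ 3 := by gcongr
    linarith
  set m := Fintype.card E with hmdef
  set Q : ℝ := (q : ℝ) ^ (1 / 3 : ℝ) with hQ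
  have hQ0 : 0 < Q := by positivity
  have hQ3 : Q ^ 3 = q := by
    rw [hQ, ← Real.rpow_natCast, ← Real.rpow_mul hq0.le]
    norm_num
  have hQ4 : 4 ≤ Q := by
    by_contra hlt
    push Not at hlt
    have : Q ^ 3 < 4 ^ 3 := by gcongr
    rw [hQ3] at this
    linarith
  have hδQ : 1 ≤ δ * Q := by
    by_contra hlt
    push Not at hlt
    have h1 : (δ * Q) ^ 3 < 1 := pow_lt_one₀ (by positivity) hlt (by norm_num)
    rw [mul_pow, hQ3] at h1
    rw [div_le_iff₀ (by positivity)] at hq
    linarith [mul_comm (q : ℝ) (δ ^ 3)]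
  set lam : ℝ := δ * q with hlam
  have hlamQ : Q ^ 2 ≤ lam := by
    rw [hlam, ← hQ3]
    nlinarith [pow_pos hQ0 2]
  have hlam1 : 1 ≤ lam := by nlinarith
  have hlam0 : 0 < lam := by linarith
  have hexp : Real.exp 1 ≤ Q := by linarith [Real.exp_one_lt_d9]
  -- one labeling
  have hone : ∀ (x : U → ZMod q) (y : V → ZMod q),
      ((univ.filter fun c : E → ZMod q =>
        δ * m < ((univ.filter fun e => y (d e) = x (s e) + c e).card : ℝ)).card : ℝ) ≤
      (q : ℝ) ^ m * (1 / Q ^ (δ * m)) := by
    intro x y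
    have h1 := chern (q := q) (fun e => y (d e) - x (s e)) (t := δ * m) hlam1
    have e1 : ∀ c : E → ZMod q, (univ.filter fun e => y (d e) = x (s e) + c e) =
        univ.filter fun e => c e = y (d e) - x (s e) := by
      intro c
      ext e
      simp only [mem_filter, mem_univ, true_and]
      constructor
      · intro h
        rw [h]
        ring
      · intro h
        rw [h]
        ring
    simp only [e1]
    have h2 : ((q : ℝ) - 1 + lam) ^ m ≤ (q : ℝ) ^ m * Q ^ (δ * m) := by
      have h3 : (q : ℝ) - 1 + lam ≤ q * Real.exp δ := by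
        have := Real.add_one_le_exp δ
        calc (q : ℝ) - 1 + lam ≤ q * (δ + 1) := by rw [hlam]; linarith
          _ ≤ q * Real.exp δ := by gcongr
      calc ((q : ℝ) - 1 + lam) ^ m ≤ (q * Real.exp δ) ^ m := by
            gcongr
            linarith
        _ = (q : ℝ) ^ m * Real.exp 1 ^ (δ * m) := by
            rw [mul_pow, ← Real.exp_nat_mul, Real.exp_one_rpow]
            ring_nf
        _ ≤ _ := by gcongr
    have h4 : (Q ^ 2) ^ (δ * m) ≤ lam ^ (δ * m) := by gcongr
    have h5 : ((Q ^ 2 : ℝ)) ^ (δ * m) = Q ^ (δ * m) * Q ^ (δ * m) := by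
      rw [sq, Real.mul_rpow hQ0.le hQ0.le]
    have hQp : 0 < Q ^ (δ * m) := by positivity
    set A : ℝ := ((univ.filter fun c : E → ZMod q =>
        δ * m < ((univ.filter fun e => c e = y (d e) - x (s e)).card : ℝ)).card : ℝ) with hA
    have hA0 : 0 ≤ A := by positivity
    have h6 : A * (Q ^ (δ * m) * Q ^ (δ * m)) ≤ (q : ℝ) ^ m * Q ^ (δ * m) := by
      rw [← h5]
      exact (mul_le_mul_of_nonneg_left h4 hA0).trans (h1.trans h2)
    rw [mul_one_div, le_div_iff₀ hQp]
    have h7 : (A * Q ^ (δ * m)) * Q ^ (δ * m) ≤ (q : ℝ) ^ m * Q ^ (δ * m) := by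
      rw [mul_assoc]
      exact h6
    exact le_of_mul_le_mul_right h7 hQp
  have hsum : ((univ.filter fun c : E → ZMod q => ∃ (x : U → ZMod q) (y : V → ZMod q),
        δ * m < ((univ.filter fun e => y (d e) = x (s e) + c e).card : ℝ)).card : ℝ) ≤
      ∑ _xy : (U → ZMod q) × (V → ZMod q), (q : ℝ) ^ m * (1 / Q ^ (δ * m)) := by
    have hsub : (univ.filter fun c : E → ZMod q => ∃ (x : U → ZMod q) (y : V → ZMod q),
        δ * m < ((univ.filter fun e => y (d e) = x (s e) + c e).card : ℝ)) ⊆
        (univ : Finset ((U → ZMod q) × (V → ZMod q))).biUnion fun xy =>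
          univ.filter fun c : E → ZMod q =>
            δ * m < ((univ.filter fun e => xy.2 (d e) = xy.1 (s e) + c e).card : ℝ) := by
      intro c hc
      simp only [mem_filter, mem_univ, true_and, mem_biUnion, Prod.exists] at hc ⊢
      exact hc
    refine (Nat.cast_le.2 ((card_le_card hsub).trans card_biUnion_le)).trans ?_
    push_cast
    exact sum_le_sum fun xy _ => hone xy.1 xy.2
  refine hsum.trans ?_
  rw [sum_const, card_univ, Fintype.card_prod, Fintype.card_fun, Fintype.card_fun, ZMod.card,
    nsmul_eq_mul]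
  push_cast
  set u := Fintype.card U
  set v := Fintype.card V
  have hQpow : Q ^ (3 * (u + v + 1)) ≤ Q ^ (δ * m) := by
    rw [← Real.rpow_natCast]
    apply Real.rpow_le_rpow_of_exponent_le (by linarith)
    push_cast
    exact hm
  have hqq : Q ^ (3 * (u + v + 1)) = (q : ℝ) ^ u * (q : ℝ) ^ v * q := by
    rw [pow_mul, hQ3, pow_add, pow_add, pow_one]
  calc (q : ℝ) ^ u * (q : ℝ) ^ v * ((q : ℝ) ^ m * (1 / Q ^ (δ * m)))
      ≤ (q : ℝ) ^ u * (q : ℝ) ^ v * ((q : ℝ) ^ m * (1 / Q ^ (3 * (u + v + 1)))) := by
        gcongr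
    _ = (q : ℝ) ^ m * (1 / q) := by
        rw [hqq]
        field_simp
    _ ≤ _ := by gcongr

end Pool.Agent.T6.H63.LD
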